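import Mathlib
import Pool.Agent.Q106.PK.Stm

set_option autoImplicit false

namespace Pool.Agent.Q106.PK

open Filter Topology

/-- minus the logarithm of the number of ominoes -/
noncomputable def lim_u (n : ℕ) : ℝ := if n = 0 then 0 else -Real.log (t n)

theorem lim_sub (h1 : S_SUPER) (h2 : S_ONE) : Subadditive lim_u := by
  intro m n
  unfold lim_u
  rcases Nat.eq_zero_or_pos m with rfl | hm
  · simp
  rcases Nat.eq_zero_or_pos n with rfl | hn
  · simp
  rw [if_neg (by omega), if_neg (by omega), if_neg (by omega)]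
  have a1 : (0 : ℝ) < t m := by
    have := h2 m hm
    exact_mod_cast this
  have a2 : (0 : ℝ) < t n := by
    have := h2 n hn
    exact_mod_cast this
  have a3 : (t m : ℝ) * t n ≤ t (m + n) := by exact_mod_cast h1 m n hm hn
  have a4 : Real.log ((t m : ℝ) * t n) ≤ Real.log (t (m + n)) := Real.log_le_log (by positivity) a3
  rw [Real.log_mul a1.ne' a2.ne'] at a4
  linarith

theorem lim_bound (h1 : S_SUPER) (h2 : S_ONE) (h3 : S_BOUND) : ∃ E : ℝ, 1 ≤ E ∧
    ∀ n : ℕ, 1 ≤ n → (t n : ℝ) ≤ E ^ (36 * n) := by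
  set E : ℝ := 1 + ∑ k ∈ Finset.range 145, (t k : ℝ) * (k : ℝ) ^ 5 with hE
  have hE1 : 1 ≤ E := by
    have : 0 ≤ ∑ k ∈ Finset.range 145, (t k : ℝ) * (k : ℝ) ^ 5 :=
      Finset.sum_nonneg fun k _ => by positivity
    linarith
  refine ⟨E, hE1, fun n hn => ?_⟩
  have h4 := h3 36 E le_rfl (by linarith) (by
    intro k hk1 hk2
    have h5 : (t k : ℝ) * (k : ℝ) ^ 5 ≤ ∑ k ∈ Finset.range 145, (t k : ℝ) * (k : ℝ) ^ 5 :=
      Finset.single_le_sum (f := fun k : ℕ => (t k : ℝ) * (k : ℝ) ^ 5) (fun i _ => by positivity)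
        (Finset.mem_range.2 (by omega))
    calc (t k : ℝ) * (k : ℝ) ^ 5 ≤ E := by linarith
      _ ≤ E ^ k := le_self_pow₀ hE1 (by omega)) (36 * n) (by omega)
  have h6 : t n ≤ t (36 * n) := by
    have h7 := h1 n (35 * n) hn (by omega)
    have h8 := h2 (35 * n) (by omega)
    have h9 : n + 35 * n = 36 * n := by ring
    rw [h9] at h7
    calc t n = t n * 1 := (mul_one _).symm
      _ ≤ t n * t (35 * n) := Nat.mul_le_mul_left _ h8
      _ ≤ t (36 * n) := h7
  have h10 : (1 : ℝ) ≤ ((36 * n : ℕ) : ℝ) ^ 5 := by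
    have : (1 : ℝ) ≤ ((36 * n : ℕ) : ℝ) := by
      have : 1 ≤ 36 * n := by omega
      exact_mod_cast this
    exact one_le_pow₀ this
  calc (t n : ℝ) ≤ t (36 * n) := by exact_mod_cast h6
    _ = (t (36 * n) : ℝ) * 1 := (mul_one _).symm
    _ ≤ (t (36 * n) : ℝ) * ((36 * n : ℕ) : ℝ) ^ 5 :=
        mul_le_mul_of_nonneg_left h10 (by positivity)
    _ ≤ E ^ (36 * n) := h4

theorem t_LIM (h1 : S_SUPER) (h2 : S_ONE) (h3 : S_BOUND) : S_LIM := by
  have hsub := lim_sub h1 h2
  obtain ⟨E, hE1, hE⟩ := lim_bound h1 h2 h3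
  have hlogE : 0 ≤ Real.log E := Real.log_nonneg hE1
  have hbdd : BddBelow (Set.range fun n : ℕ => lim_u n / n) := by
    refine ⟨-(36 * Real.log E), ?_⟩
    rintro _ ⟨n, rfl⟩
    rcases Nat.eq_zero_or_pos n with rfl | hn
    · simp only [Nat.cast_zero, div_zero]
      linarith
    · have hn' : (0 : ℝ) < n := by exact_mod_cast hn
      have a1 : (0 : ℝ) < t n := by
        have := h2 n hn
        exact_mod_cast this
      have a2 : Real.log (t n) ≤ 36 * n * Real.log E := by
        have := Real.log_le_log a1 (hE n hn)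
        rw [Real.log_pow] at this
        push_cast at this
        exact this
      show -(36 * Real.log E) ≤ lim_u n / n
      unfold lim_u
      rw [if_neg (by omega), le_div_iff₀ hn']
      nlinarith
  have hlim := hsub.tendsto_lim hbdd
  have hexp : Tendsto (fun n : ℕ => Real.exp (-(lim_u n / n))) atTop (𝓝 (Real.exp (-hsub.lim))) :=
    (Real.continuous_exp.tendsto _).comp hlim.neg
  have heq : (fun n : ℕ => Real.exp (-(lim_u n / n))) =ᶠ[atTop]
      fun n : ℕ => (t n : ℝ) ^ (1 / (n : ℝ)) := by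
    filter_upwards [eventually_ge_atTop 1] with n hn
    have a1 : (0 : ℝ) < t n := by
      have := h2 n hn
      exact_mod_cast this
    rw [Real.rpow_def_of_pos a1]
    unfold lim_u
    rw [if_neg (by omega)]
    congr 1
    ring
  have hT : Tendsto (fun n : ℕ => (t n : ℝ) ^ (1 / (n : ℝ))) atTop (𝓝 (Real.exp (-hsub.lim))) :=
    hexp.congr' heq
  refine ⟨Real.exp (-hsub.lim), ?_, hT⟩
  refine ge_of_tendsto hT ?_
  filter_upwards [eventually_ge_atTop 1] with n hn
  have a1 : (1 : ℝ) ≤ t n := by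
    have := h2 n hn
    exact_mod_cast this
  exact Real.one_le_rpow a1 (by positivity)

end Pool.Agent.Q106.PK
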