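import Mathlib
import Pool.Agent.Q16.SQ.Stm2
set_option autoImplicit false

/-!
Lemma job for helper16 (project SQ): the case `K6` of the commensurable families.
-/

open scoped BigOperators
open Pool.Agent.Helper549.Tri Q16.SQ

namespace Pool.Agent.Q192.SQF6

lemma rat_coeff {x : ℝ} (hx : Irrational x) {p q p' q' : ℚ}
    (h : (p : ℝ) * x + q = p' * x + q') : p = p' := by
  by_contra hne
  have hpp : (p : ℝ) - p' ≠ 0 := by
    intro h0
    apply hne
    have : (p : ℝ) = p' := by linarith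
    exact_mod_cast this
  apply hx
  refine ⟨(q' - q) / (p - p'), ?_⟩
  push_cast
  rw [div_eq_iff hpp]
  linarith

/-- three positive rational numbers have a common denominator -/
lemma common {x y z : ℚ} (hx : 0 < x) (hy : 0 < y) (hz : 0 < z) :
    ∃ a b c D : ℕ, 0 < a ∧ 0 < b ∧ 0 < c ∧ 0 < D ∧ (x : ℝ) = (a : ℝ) / D ∧
      (y : ℝ) = (b : ℝ) / D ∧ (z : ℝ) = (c : ℝ) / D := by
  have hxn : 0 < x.num := Rat.num_pos.mpr hx
  have hyn : 0 < y.num := Rat.num_pos.mpr hy
  have hzn : 0 < z.num := Rat.num_pos.mpr hz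
  have hxd := x.den_pos
  have hyd := y.den_pos
  have hzd := z.den_pos
  refine ⟨x.num.toNat * (y.den * z.den), y.num.toNat * (x.den * z.den),
    z.num.toNat * (x.den * y.den), x.den * y.den * z.den, ?_, ?_, ?_, ?_, ?_, ?_, ?_⟩
  · have : 0 < x.num.toNat := by omega
    positivity
  · have : 0 < y.num.toNat := by omega
    positivity
  · have : 0 < z.num.toNat := by omega
    positivity
  · positivity
  · have e : ((x.num.toNat : ℕ) : ℝ) = (x.num : ℝ) := by
      have : ((x.num.toNat : ℕ) : ℤ) = x.num := Int.toNat_of_nonneg hxn.le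
      exact_mod_cast this
    have hd1 : (x.den : ℝ) ≠ 0 := by positivity
    have hd2 : (y.den : ℝ) ≠ 0 := by positivity
    have hd3 : (z.den : ℝ) ≠ 0 := by positivity
    rw [Rat.cast_def x]
    push_cast
    rw [e]
    field_simp
  · have e : ((y.num.toNat : ℕ) : ℝ) = (y.num : ℝ) := by
      have : ((y.num.toNat : ℕ) : ℤ) = y.num := Int.toNat_of_nonneg hyn.le
      exact_mod_cast this
    have hd1 : (x.den : ℝ) ≠ 0 := by positivity
    have hd2 : (y.den : ℝ) ≠ 0 := by positivity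
    have hd3 : (z.den : ℝ) ≠ 0 := by positivity
    rw [Rat.cast_def y]
    push_cast
    rw [e]
    field_simp
  · have e : ((z.num.toNat : ℕ) : ℝ) = (z.num : ℝ) := by
      have : ((z.num.toNat : ℕ) : ℤ) = z.num := Int.toNat_of_nonneg hzn.le
      exact_mod_cast this
    have hd1 : (x.den : ℝ) ≠ 0 := by positivity
    have hd2 : (y.den : ℝ) ≠ 0 := by positivity
    have hd3 : (z.den : ℝ) ≠ 0 := by positivity
    rw [Rat.cast_def z]
    push_cast
    rw [e]
    field_simp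

/-- if `N D²` is the square of a natural number then so is `N` -/
lemma sq_of_mul {N D s : ℕ} (hD : 0 < D) (h : N * D ^ 2 = s * s) : IsSquare N := by
  have hd : D ^ 2 ∣ s ^ 2 := ⟨N, by rw [sq s, ← h]; ring⟩
  have hd' : D ∣ s := (Nat.pow_dvd_pow_iff (by norm_num)).mp hd
  obtain ⟨u, rfl⟩ := hd'
  refine ⟨u, ?_⟩
  have : D ^ 2 * N = D ^ 2 * (u * u) := by nlinarith
  exact Nat.eq_of_mul_eq_mul_left (by positivity) this

theorem t_F6 (h : S_SH6) : S_F6 := by
  intro N ℓ θ S A κ β hD hN hκ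
  obtain ⟨hc, r, hr, hS0, hS1, hS2, hNr⟩ := h hD hκ
  have h0 := hD.lpos 0
  have h1 := hD.lpos 1
  have h2 := hD.lpos 2
  -- the two characters
  obtain ⟨M, -, -, hM, -⟩ := hD.char ![1, -1, 1]
    (by intro k; fin_cases k <;> simp) (by simp)
    ⟨2, by rw [hκ]; simp [K6, Fin.sum_univ_three]⟩
    (by rw [hκ]; simp [K6, Fin.sum_univ_three, Fin.prod_univ_three])
  obtain ⟨M', -, -, hM', -⟩ := hD.char ![-1, 1, 1]
    (by intro k; fin_cases k <;> simp) (by simp)
    ⟨2, by rw [hκ]; simp [K6, Fin.sum_univ_three]⟩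
    (by rw [hκ]; simp [K6, Fin.sum_univ_three, Fin.prod_univ_three])
  have e1 : S 0 - S 1 + S 2 = M * (ℓ 0 - ℓ 1 + ℓ 2) := by
    rw [hκ] at hM
    simp [K6, Fin.sum_univ_three, Fin.prod_univ_three] at hM
    linarith
  have e2 : S 0 - S 1 + S 2 = M' * (-ℓ 0 + ℓ 1 + ℓ 2) := by
    rw [hκ] at hM'
    simp [K6, Fin.sum_univ_three, Fin.prod_univ_three] at hM'
    linarith
  have hpos1 : 0 < ℓ 0 - ℓ 1 + ℓ 2 := by nlinarith
  have hpos2 : 0 < -ℓ 0 + ℓ 1 + ℓ 2 := by nlinarith
  have hdiff : S 0 - S 1 + S 2 = r * ((ℓ 0 - ℓ 1 + ℓ 2) * (-ℓ 0 + ℓ 1 + ℓ 2)) := by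
    rw [hS0, hS1, hS2]
    linear_combination (-2 * r) * hc
  have eM : (M : ℝ) = r * (-ℓ 0 + ℓ 1 + ℓ 2) := by
    have : (ℓ 0 - ℓ 1 + ℓ 2) * (M : ℝ) = (ℓ 0 - ℓ 1 + ℓ 2) * (r * (-ℓ 0 + ℓ 1 + ℓ 2)) := by
      linear_combination hdiff - e1
    exact mul_left_cancel₀ hpos1.ne' this
  have eM' : (M' : ℝ) = r * (ℓ 0 - ℓ 1 + ℓ 2) := by
    have : (-ℓ 0 + ℓ 1 + ℓ 2) * (M' : ℝ) = (-ℓ 0 + ℓ 1 + ℓ 2) * (r * (ℓ 0 - ℓ 1 + ℓ 2)) := by
      linear_combination hdiff - e2
    exact mul_left_cancel₀ hpos2.ne' this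
  set x := r * ℓ 0 with hx
  set y := r * ℓ 1 with hy
  set z := r * ℓ 2 with hz
  have hx0 : 0 < x := mul_pos hr h0
  have hy0 : 0 < y := mul_pos hr h1
  have hz0 : 0 < z := mul_pos hr h2
  have ez : z = (((M + M' : ℚ) / 2 : ℚ) : ℝ) := by
    push_cast
    rw [eM, eM', hz]
    ring
  set d : ℚ := ((M' : ℚ) - M) / 2 with hd
  have ed : x - y = (d : ℝ) := by
    rw [hd]
    push_cast
    rw [eM, eM', hx, hy]
    ring
  set ze : ℚ := (M + M' : ℚ) / 2 with hze
  have hzz : z ^ 2 = x ^ 2 + x * y + y ^ 2 := by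
    rw [hx, hy, hz]
    linear_combination (r ^ 2) * hc
  set e : ℚ := (ze ^ 2 - d ^ 2) / 3 with he
  have hxy : x * y = (e : ℝ) := by
    rw [he]
    push_cast
    rw [← ez, ← ed]
    linear_combination (-1 / 3 : ℝ) * hzz
  have hxx : x ^ 2 = (d : ℝ) * x + e := by
    rw [← hxy, ← ed]
    ring
  -- the sides
  have hs0 : x * (x + 2 * y) = x * (β 0 0 : ℝ) + y * (β 0 1 : ℝ) + z * (β 0 2 : ℝ) := by
    have hs := hD.side 0
    rw [Fin.sum_univ_three, hS0] at hs
    rw [hx, hy, hz]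
    linear_combination r * hs
  have hs2 : y * (2 * x + y) = x * (β 2 0 : ℝ) + y * (β 2 1 : ℝ) + z * (β 2 2 : ℝ) := by
    have hs := hD.side 2
    rw [Fin.sum_univ_three, hS2] at hs
    rw [hx, hy, hz]
    linear_combination r * hs
  have hxr : ¬ Irrational x := by
    intro hirr
    have c0 : d = (β 0 0 : ℚ) + β 0 1 := by
      apply rat_coeff hirr (q := 3 * e) (q' := -d * β 0 1 + ze * β 0 2)
      push_cast
      have hy' : y = x - d := by linarith
      have : x * (x + 2 * y) = (d : ℝ) * x + 3 * e := by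
        linear_combination hxx + 2 * hxy
      rw [← this, hs0, ez, hy']
      ring
    have c2 : -d = (β 2 0 : ℚ) + β 2 1 := by
      apply rat_coeff hirr (q := 3 * e + d ^ 2) (q' := -d * β 2 1 + ze * β 2 2)
      push_cast
      have hy' : y = x - d := by linarith
      have : y * (2 * x + y) = -(d : ℝ) * x + (3 * e + d ^ 2) := by
        have hyy : y ^ 2 = x ^ 2 - 2 * d * x + d ^ 2 := by rw [hy']; ring
        linear_combination hyy + 2 * hxy + hxx
      rw [← this, hs2, ez, hy']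
      ring
    have hd0 : d = 0 := by
      have p1 : (0 : ℚ) ≤ (β 0 0 : ℚ) + β 0 1 := by positivity
      have p2 : (0 : ℚ) ≤ (β 2 0 : ℚ) + β 2 1 := by positivity
      linarith
    have hxy' : x = y := by
      have : x - y = 0 := by rw [ed, hd0]; simp
      linarith
    have hl : ℓ 0 = ℓ 1 := mul_left_cancel₀ hr.ne' hxy'
    -- equal angles
    have hsin : Real.sin (θ 1) = Real.sin (θ 0) := by
      have := hD.sinet 0 1
      rw [hl] at this
      exact mul_left_cancel₀ h1.ne' this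
    have hAs := hD.Asum
    have ha0 := hD.angles 0
    have ha1 := hD.angles 1
    have ha2 := hD.angles 2
    rw [hκ] at ha0 ha1 ha2
    simp [K6, Fin.sum_univ_three] at ha0 ha1 ha2
    have hsum : θ 0 + θ 1 = Real.pi / 3 := by linarith
    have t0 := hD.tpos 0
    have t1 := hD.tpos 1
    have hpi := Real.pi_pos
    have hθ : θ 1 = θ 0 := by
      apply Real.injOn_sin
      · constructor <;> linarith
      · constructor <;> linarith
      · exact hsin
    apply hD.irr
    intro k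
    have ht := hD.tsum
    fin_cases k
    · refine ⟨1 / 6, ?_⟩
      show θ 0 = _
      push_cast
      linarith
    · refine ⟨1 / 6, ?_⟩
      show θ 1 = _
      push_cast
      linarith
    · refine ⟨2 / 3, ?_⟩
      show θ 2 = _
      push_cast
      linarith
  -- rational sides
  obtain ⟨xq, hxq⟩ : ∃ q : ℚ, (q : ℝ) = x := by
    by_contra hno
    exact hxr fun ⟨q, hq⟩ => hno ⟨q, hq⟩
  have hyq : ((xq - d : ℚ) : ℝ) = y := by
    push_cast
    rw [hxq]
    linarith
  have hzq : ((ze : ℚ) : ℝ) = z := ez.symm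
  obtain ⟨a, b, c, D, ha, hb, hc', hDp, xa, yb, zc⟩ := common (x := xq) (y := xq - d) (z := ze)
    (by have : (0 : ℝ) < xq := by rw [hxq]; exact hx0
        exact_mod_cast this)
    (by have : (0 : ℝ) < ((xq - d : ℚ) : ℝ) := by rw [hyq]; exact hy0
        exact_mod_cast this)
    (by have : (0 : ℝ) < ((ze : ℚ) : ℝ) := by rw [hzq]; exact hz0
        exact_mod_cast this)
  rw [hxq] at xa
  rw [hyq] at yb
  rw [hzq] at zc
  have hDr : (0 : ℝ) < D := by exact_mod_cast hDp
  have hD0 : (D : ℝ) ≠ 0 := hDr.ne'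
  have hcab : c ^ 2 = a ^ 2 + a * b + b ^ 2 := by
    have : (c : ℝ) ^ 2 = (a : ℝ) ^ 2 + a * b + b ^ 2 := by
      have h3 := hzz
      rw [xa, yb, zc] at h3
      field_simp at h3
      linarith
    exact_mod_cast this
  have hNN : N * D ^ 2 = (a + 2 * b) * (2 * a + b) := by
    have : (N : ℝ) * D ^ 2 = ((a : ℝ) + 2 * b) * (2 * a + b) := by
      have h3 : (N : ℝ) = (x + 2 * y) * (2 * x + y) := by
        rw [hNr, hx, hy]
        ring
      rw [h3, xa, yb]
      field_simp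
    exact_mod_cast this
  refine ⟨0, 1, 2, by decide, by decide, by decide, a * (a + 2 * b), c ^ 2, b * (2 * a + b),
    ⟨a, b, c, ha, hb, hc', Or.inr ⟨hcab, Or.inr (Or.inr (Or.inr ⟨rfl, rfl, rfl, ?_⟩))⟩⟩,
    1 / (r * D ^ 2), by positivity, ?_, ?_, ?_⟩
  · rintro ⟨s, hs⟩
    exact hN (sq_of_mul hDp (hNN.trans hs))
  · rw [hS0]
    have e0 : ℓ 0 = x / r := by rw [hx]; field_simp
    have e1 : ℓ 1 = y / r := by rw [hy]; field_simp
    rw [e0, e1, xa, yb]
    push_cast
    field_simp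
  · rw [hS1]
    have e0 : ℓ 2 = z / r := by rw [hz]; field_simp
    rw [e0, zc]
    push_cast
    field_simp
  · rw [hS2]
    have e0 : ℓ 0 = x / r := by rw [hx]; field_simp
    have e1 : ℓ 1 = y / r := by rw [hy]; field_simp
    rw [e0, e1, xa, yb]
    push_cast
    field_simp

end Pool.Agent.Q192.SQF6
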