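import Pool.Agent.Q61.BS.Stm

/-!
# Derivatives (job DER of project BS)
-/

set_option autoImplicit false

open Set Real

namespace Pool.Agent.Q192.BS

open Pool.Agent.Q61.BS

theorem der : S_der := by
  intro x₀ hx₀ hlog
  obtain ⟨h0, h1⟩ := hx₀
  have hx0 : 0 < x₀ := by linarith
  have hx1 : 0 < 1 - x₀ := by linarith
  have hx2 : 0 < 2 - x₀ := by linarith
  have hx3 : 0 < 1 - 2 * x₀ := by linarith
  have hx4 : 0 < 1 + x₀ := by linarith
  set κ := kap x₀ with hκ
  set m := mz x₀ with hm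
  have hκ' : κ = (1 - 2 * x₀) / (x₀ * (2 - x₀)) := rfl
  have hm' : m = 27 * x₀ * (1 - x₀) / (2 * (1 - 2 * x₀) * (2 - x₀) * (1 + x₀)) := rfl
  have hκ0 : 0 < κ := by
    rw [hκ']
    positivity
  have hM : (1 + κ) * m = 27 * (1 - x₀) ^ 2 / (2 * (1 - 2 * x₀) * (2 - x₀) ^ 2) := by
    rw [hκ', hm']
    field_simp
    ring
  refine ⟨fun x => log (1 - x) - log x - (1 + κ) * m / (1 + κ * x) ^ 2, ?_, ?_, ?_⟩
  · intro x hx
    have e1 : 0 < 1 + κ * x := by
      have := mul_pos hκ0 hx.1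
      linarith
    have hb := Real.hasDerivAt_binEntropy (p := x) hx.1.ne' hx.2.ne
    have hn : HasDerivAt (fun y : ℝ => 1 - y) (-1) x := by
      simpa using (hasDerivAt_id x).const_sub 1
    have hd : HasDerivAt (fun y : ℝ => 1 + κ * y) κ x := by
      simpa using ((hasDerivAt_id x).const_mul κ).const_add 1
    have hw := hn.fun_div hd e1.ne'
    have h := hb.fun_add (hw.const_mul m)
    refine h.congr_deriv ?_
    field_simp
    ring
  · intro x hx
    have e1 : 0 < 1 + κ * x := by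
      have := mul_pos hκ0 hx.1
      linarith
    have e2 : 0 < 1 - x := by linarith [hx.2]
    have e3 : 0 < x := hx.1
    have hn : HasDerivAt (fun y : ℝ => 1 - y) (-1) x := by
      simpa using (hasDerivAt_id x).const_sub 1
    have hd : HasDerivAt (fun y : ℝ => 1 + κ * y) κ x := by
      simpa using ((hasDerivAt_id x).const_mul κ).const_add 1
    have hl1 := hn.log e2.ne'
    have hl2 := Real.hasDerivAt_log e3.ne'
    have hp := hd.fun_pow 2
    have hq := (hasDerivAt_const x ((1 + κ) * m)).fun_div hp (pow_pos e1 2).ne'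
    have h := (hl1.fun_sub hl2).fun_sub hq
    refine h.congr_deriv ?_
    have key : (1 + κ * x) ^ 3 - 2 * κ * ((1 + κ) * m) * (x * (1 - x)) =
        κ ^ 3 * (x - x₀) ^ 2 * (x + 1 / (κ ^ 3 * x₀ ^ 2)) := by
      have e4 : κ ^ 3 * (x - x₀) ^ 2 * (x + 1 / (κ ^ 3 * x₀ ^ 2)) =
          κ ^ 3 * (x - x₀) ^ 2 * x + (x - x₀) ^ 2 / x₀ ^ 2 := by
        field_simp
      rw [e4, hM, hκ']
      field_simp
      ring
    rw [← key]
    generalize (1 + κ) * m = M
    field_simp
    ring
  · have e1 : 1 + κ * x₀ = 3 * (1 - x₀) / (2 - x₀) := by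
      rw [hκ']
      field_simp
      ring
    show log (1 - x₀) - log x₀ - (1 + κ) * m / (1 + κ * x₀) ^ 2 = 0
    rw [e1, hM, ← Real.log_div hx1.ne' hx0.ne', hlog]
    field_simp
    ring

end Pool.Agent.Q192.BS
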