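import Pool.Agent.Q88.MD.Stm

/-!
# Project MD, job NPR
-/

set_option autoImplicit false

open MeasureTheory Set Filter Topology
open scoped ENNReal NNReal

namespace Pool.Agent.Q192.MD

open Pool.Agent.Q88.MD

theorem npr (h : S_npl) (h1 : S_bca) (h2 : S_tlt) : S_npr := by
  intro lam gam q hlam hgam hq f μ hf hμ hex K hK hμK
  obtain ⟨δ, hδ, C, hC, hae⟩ := h1 lam gam q hlam hgam hq f μ hf hμ hex
  have hex' : ¬ ((gam - 1) / (lam - 1) = q - (gam - 1) ∧
      Real.binEntropy (1 / lam) ≤ Real.binEntropy (1 / (1 + (gam - 1)))) := by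
    rw [show 1 + (gam - 1) = gam by ring]
    exact hex
  obtain ⟨hth0, hth1⟩ := h2 (gam - 1) lam q (by linarith) hlam hq
  have hth2 := hth1 hex'
  have hlog : 0 < Real.log 2 := Real.log_pos (by norm_num)
  have hs : th (gam - 1) lam q / Real.log 2 ∈ Ico (0 : ℝ) 1 :=
    ⟨by positivity, (div_lt_one hlog).mpr hth2⟩
  have hfin : IsProbabilityMeasure μ := hμ.1
  have hone : μ (Ico (0 : ℝ) 1) = 1 := by
    rw [hμ.2 1 ⟨zero_le_one, le_rfl⟩, hf.2.2.2.1, ENNReal.ofReal_one]
  have hcompl : μ (Ico (0 : ℝ) 1)ᶜ = 0 := (prob_compl_eq_zero_iff measurableSet_Ico).mpr hone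
  have hpos : 0 < μ (K ∩ Ico 0 1) := by
    refine lt_of_lt_of_le hμK ?_
    calc μ K ≤ μ ((K ∩ Ico (0 : ℝ) 1) ∪ (Ico (0 : ℝ) 1)ᶜ) := by
          apply measure_mono
          intro x hx
          by_cases hx1 : x ∈ Ico (0 : ℝ) 1
          · exact Or.inl ⟨hx, hx1⟩
          · exact Or.inr hx1
      _ ≤ μ (K ∩ Ico 0 1) + μ (Ico (0 : ℝ) 1)ᶜ := measure_union_le _ _
      _ = μ (K ∩ Ico 0 1) := by rw [hcompl, add_zero]
  refine h _ hs μ inferInstance
    (fun n => ENNReal.ofReal (C * Real.exp (-(n : ℝ) * (th (gam - 1) lam q + δ)))) ?_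
    (fun n => ENNReal.ofReal_ne_top) K hK hpos hae
  have hterm : ∀ n : ℕ, ENNReal.ofReal (2 ^ ((n : ℝ) * (th (gam - 1) lam q / Real.log 2))) *
      ENNReal.ofReal (C * Real.exp (-(n : ℝ) * (th (gam - 1) lam q + δ))) =
      ENNReal.ofReal (C * Real.exp (-δ) ^ n) := by
    intro n
    rw [← ENNReal.ofReal_mul (by positivity)]
    congr 1
    rw [Real.rpow_def_of_pos (by norm_num), ← Real.exp_nat_mul]
    have e1 : Real.log 2 * ((n : ℝ) * (th (gam - 1) lam q / Real.log 2)) =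
        n * th (gam - 1) lam q := by
      field_simp
    rw [e1, mul_left_comm, ← Real.exp_add]
    congr 2
    ring
  simp only [hterm]
  apply Summable.tsum_ofReal_ne_top
  apply Summable.mul_left
  apply summable_geometric_of_lt_one (Real.exp_pos _).le
  rw [Real.exp_lt_one_iff]
  linarith

end Pool.Agent.Q192.MD
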