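import Pool.Agent.Q88.MK.Stm

/-!
# The numbers `i + j s` are dense far out (job DEN of project MK)
-/

set_option autoImplicit false

namespace Pool.Agent.Q192.MK

open Pool.Agent.Q88.MK

lemma step (x₀ y e : ℝ) (L : ℕ) (he : 0 < e) (hL : 1 < L * e) (h0 : x₀ ≤ y) (h1 : y < x₀ + 1) :
    ∃ t : ℕ, t ≤ L ∧ y < x₀ + t * e ∧ x₀ + t * e ≤ y + e := by
  have hz : 0 ≤ (y - x₀) / e := div_nonneg (sub_nonneg.2 h0) he.le
  refine ⟨⌊(y - x₀) / e⌋₊ + 1, ?_, ?_, ?_⟩
  · have : (y - x₀) / e < L := by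
      rw [div_lt_iff₀ he]
      linarith
    exact Nat.succ_le_of_lt ((Nat.floor_lt hz).2 this)
  · have := Nat.lt_floor_add_one ((y - x₀) / e)
    rw [div_lt_iff₀ he] at this
    push_cast
    linarith
  · have := Nat.floor_le hz
    rw [le_div_iff₀ he] at this
    push_cast
    linarith

lemma dense_far (s η : ℝ) (hs : Irrational s) (hs1 : 1 < s) (hη : 0 < η) (hη1 : η ≤ 1) :
    ∃ Y : ℝ, ∀ y : ℝ, Y ≤ y → ∃ i j : ℕ, y < (i : ℝ) + j * s ∧ (i : ℝ) + j * s < y + η := by
  obtain ⟨n, hn⟩ := exists_nat_one_div_lt hη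
  have hn1 : 0 < n := by
    rcases Nat.eq_zero_or_pos n with h | h
    · subst h
      norm_num at hn
      linarith
    · exact h
  obtain ⟨j, k, hk, -, hjk⟩ := Real.exists_int_int_abs_mul_sub_le s hn1
  have hd : |(k : ℝ) * s - j| < η := lt_of_le_of_lt hjk hn
  have hk1 : (1 : ℝ) ≤ k := by exact_mod_cast hk
  have hj0 : 0 ≤ j := by
    by_contra hj
    have hj' : (j : ℝ) ≤ -1 := by exact_mod_cast (by omega : j ≤ -1)
    have := (abs_lt.1 hd).2
    nlinarith
  have hne : (k : ℝ) * s - j ≠ 0 := by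
    intro h
    refine hs ⟨(j : ℚ) / k, ?_⟩
    have hk0 : (k : ℝ) ≠ 0 := by linarith
    push_cast
    rw [div_eq_iff hk0]
    linarith
  lift j to ℕ using hj0
  lift k to ℕ using hk.le
  rw [Int.cast_natCast, Int.cast_natCast] at hd hne
  rcases lt_or_gt_of_ne hne with hneg | hpos
  · -- `j - k s > 0`
    set e : ℝ := j - k * s with he
    have he0 : 0 < e := by rw [he]; linarith
    have heη : e < η := by
      have := (abs_lt.1 hd).1
      rw [he]; linarith
    obtain ⟨L, hL⟩ := exists_nat_gt (1 / e)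
    have hL' : 1 < L * e := by rwa [div_lt_iff₀ he0] at hL
    refine ⟨L * (k * s) + 1, fun y hy => ?_⟩
    have hw : 0 ≤ y - L * (k * s) := by linarith
    obtain ⟨t, htL, ht1, ht2⟩ := step (⌊y - L * (k * s)⌋₊ + L * (k * s)) y e L he0 hL'
      (by have := Nat.floor_le hw; linarith) (by have := Nat.lt_floor_add_one (y - L * (k * s)); linarith)
    refine ⟨⌊y - L * (k * s)⌋₊ + t * j, (L - t) * k, ?_, ?_⟩
    · push_cast [Nat.cast_sub htL]
      rw [he] at ht1
      linarith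
    · push_cast [Nat.cast_sub htL]
      rw [he] at ht2 heη
      linarith
  · set e : ℝ := k * s - j with he
    have he0 : 0 < e := hpos
    have heη : e < η := (abs_lt.1 hd).2
    obtain ⟨L, hL⟩ := exists_nat_gt (1 / e)
    have hL' : 1 < L * e := by rwa [div_lt_iff₀ he0] at hL
    refine ⟨L * j + 1, fun y hy => ?_⟩
    have hy0 : 0 ≤ y := by
      have : (0 : ℝ) ≤ L * j := by positivity
      linarith
    obtain ⟨t, htL, ht1, ht2⟩ := step ⌊y⌋₊ y e L he0 hL' (Nat.floor_le hy0)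
      (Nat.lt_floor_add_one y)
    have hfl : t * j ≤ ⌊y⌋₊ := by
      refine (Nat.mul_le_mul_right j htL).trans (Nat.le_floor ?_)
      push_cast
      linarith
    refine ⟨⌊y⌋₊ - t * j, t * k, ?_, ?_⟩
    · push_cast [Nat.cast_sub hfl]
      rw [he] at ht1
      linarith
    · push_cast [Nat.cast_sub hfl]
      rw [he] at ht2 heη
      linarith

theorem den : S_den := by
  intro s b hs hs1 hb
  have hb0 : (0 : ℝ) < b := by exact_mod_cast hb
  have hb1 : (1 : ℝ) ≤ b := by exact_mod_cast hb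
  obtain ⟨Y, hY⟩ := dense_far s (1 / 2 / b) hs hs1 (by positivity) (by
    rw [div_le_one hb0]
    linarith)
  obtain ⟨k₀, hk₀⟩ := exists_nat_ge (Y * b)
  refine ⟨k₀, fun k hk => ?_⟩
  have hy : Y ≤ (k : ℝ) / b := by
    rw [le_div_iff₀ hb0]
    exact hk₀.trans (by exact_mod_cast hk)
  obtain ⟨i, j, h1, h2⟩ := hY _ hy
  exact ⟨i, j, h1, by rw [add_div]; exact h2⟩

end Pool.Agent.Q192.MK
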