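import Mathlib
import Pool.Agent.Q49.MR2.Stm

/-!
# Project MR2, job PEN: counting over the pencil
-/

set_option autoImplicit false

open Module Q49.MR Q49.MR2

namespace Q192.MR2_PEN

section basic

variable {K L : Type} [Field K] [Field L] [Algebra K L] (σ : L ≃ₐ[K] L)

lemma t4_fix {x : L} (hx : σ (σ (σ (σ x))) = x) : σ (t4 σ x) = t4 σ x := by
  simp only [t4, map_add, hx]
  ring

lemma t4_phi (h2 : (2 : L) = 0) {θ : L} (hθ : σ (σ (σ (σ θ))) = θ + 1) : t4 σ (phi σ θ) = 1 := by
  simp only [t4, phi, map_add]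
  linear_combination hθ + (θ + σ θ + σ (σ θ) + σ (σ (σ θ))) * h2

lemma phi4 (h2 : (2 : L) = 0) {θ : L} (hθ : σ (σ (σ (σ θ))) = θ + 1) :
    σ (σ (σ (σ (phi σ θ)))) = phi σ θ := by
  simp only [phi, map_add, hθ, map_one]
  linear_combination h2

lemma nu4 (h2 : (2 : L) = 0) {θ m : L} (hθ : σ (σ (σ (σ θ))) = θ + 1)
    (hm : σ (σ (σ (σ m))) = m) : σ (σ (σ (σ (nu σ θ m)))) = nu σ θ m := by
  simp only [nu, map_add, map_one, phi4 σ h2 hθ, hm]

lemma nn4 (h2 : (2 : L) = 0) {θ : L} (hθ : σ (σ (σ (σ θ))) = θ + 1) :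
    σ (σ (σ (σ (nn θ)))) = nn θ := by
  simp only [nn, map_add, map_pow, hθ]
  linear_combination (θ + 1) * h2

lemma P2_fix (h2 : (2 : L) = 0) {θ m : L} (hθ : σ (σ (σ (σ θ))) = θ + 1)
    (hm : σ (σ (σ (σ m))) = m) {w r : L} (hw : σ (σ (σ (σ w))) = w) (ht : t4 σ w = 0)
    (hr : σ r = r) : σ (P2 σ θ m w r) = P2 σ θ m w r := by
  have hx : σ (t4 σ (nu σ θ m * w * σ w)) = t4 σ (nu σ θ m * w * σ w) :=
    t4_fix σ (by simp only [map_mul, nu4 σ h2 hθ hm, hw])
  unfold P2
  rw [map_add, hx, map_mul, map_add, hr]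
  unfold t4 at ht
  linear_combination (-r) * ht + r * (σ w + σ (σ (σ w))) * h2

lemma G2_add (h2 : (2 : L) = 0) {θ m : L} (hθ : σ (σ (σ (σ θ))) = θ + 1)
    {w r : L} (hw : σ (σ (σ (σ w))) = w)
    (hr : σ r = r) : σ (G2 σ θ m w r) = P2 σ θ m w r - G2 σ θ m w r := by
  have hx : σ (t4 σ (nn θ * w ^ 2)) = t4 σ (nn θ * w ^ 2) :=
    t4_fix σ (by simp only [map_mul, map_pow, nn4 σ h2 hθ, hw])
  unfold G2 P2
  simp only [map_add, map_mul, map_pow, hr, hx, hw]
  generalize t4 σ (nn θ * w ^ 2) = T
  simp only [t4, map_mul, hw]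
  linear_combination (r ^ 2 + r * σ w + T) * h2

end basic

theorem pen (h1 : S2_FX) (h2 : S2_DIM) : S2_PEN := by
  classical
  intro K L _ _ _ _ _ σ hσ θ m hθ hm hno hPsi hge D hD2 hD1
  have two : (2 : L) = 0 := by
    have := congrArg (algebraMap K L) hσ.two
    rwa [map_ofNat, map_zero] at this
  have fx := h1 K L σ hσ
  haveI : Fintype K := Fintype.ofFinite K
  haveI : Fintype L := Fintype.ofFinite L
  set q := Nat.card K with hq
  have hqK : Fintype.card K = q := (Nat.card_eq_fintype_card).symm
  set Ψ : L × K → L := fun z => P2 σ θ m z.1 (algebraMap K L z.2) with hΨ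
  set G : L × K → L := fun z => G2 σ θ m z.1 (algebraMap K L z.2) with hG
  set S : Finset (L × K) := Finset.univ.filter (fun z => InV σ z) with hS
  have hmemS : ∀ z, z ∈ S ↔ InV σ z := fun z => by simp [hS]
  have hcard : ∀ P : L × K → Prop, Nat.card {z : L × K // InV σ z ∧ P z} = (S.filter P).card := by
    intro P
    rw [Nat.card_eq_fintype_card, Fintype.card_subtype, hS, Finset.filter_filter]
  -- the number of elements of `V4`
  have hφ4 := phi4 σ two hθ
  have hSc : S.card = q ^ 4 := by
    have e1 : S.card = Nat.card {z : L × K // InV σ z} := by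
      rw [Nat.card_eq_fintype_card, Fintype.card_subtype]
    rw [e1]
    have e2 : Nat.card (E4 σ) = q ^ 4 := by
      haveI : Fintype (E4 σ) := Fintype.ofFinite _
      rw [Nat.card_eq_fintype_card, Module.card_eq_pow_finrank (K := K) (V := E4 σ),
        (h2 K L σ hσ).1, hqK]
    rw [← e2]
    refine Nat.card_eq_of_bijective (fun z : {z : L × K // InV σ z} =>
      (⟨z.1.1 + algebraMap K L z.1.2 * phi σ θ, by
        show σ (σ (σ (σ (z.1.1 + algebraMap K L z.1.2 * phi σ θ)))) = _
        simp only [map_add, map_mul, AlgEquiv.commutes, hφ4, z.2.1]⟩ : E4 σ)) ⟨?_, ?_⟩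
    · rintro ⟨⟨w, ρ⟩, hz1, hz2⟩ ⟨⟨w', ρ'⟩, hz1', hz2'⟩ h
      have h' : w + algebraMap K L ρ * phi σ θ = w' + algebraMap K L ρ' * phi σ θ :=
        congrArg Subtype.val h
      have h'' := congrArg (t4 σ) h'
      have e3 : ∀ (u : L) (c : K), t4 σ (u + algebraMap K L c * phi σ θ) =
          t4 σ u + algebraMap K L c := by
        intro u c
        have : t4 σ (u + algebraMap K L c * phi σ θ) =
            t4 σ u + algebraMap K L c * t4 σ (phi σ θ) := by
          simp only [t4, map_add, map_mul, AlgEquiv.commutes]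
          ring
        rw [this, t4_phi σ two hθ, mul_one]
      rw [e3, e3] at h''
      have hz2a : t4 σ w = 0 := hz2
      have hz2b : t4 σ w' = 0 := hz2'
      rw [hz2a, hz2b, zero_add, zero_add] at h''
      have e4 : ρ = ρ' := (algebraMap K L).injective h''
      subst e4
      have e5 : w = w' := add_right_cancel h'
      subst e5
      rfl
    · rintro ⟨v, hv⟩
      have hv' : σ (σ (σ (σ v))) = v := hv
      obtain ⟨c, hc⟩ := fx (t4 σ v) (t4_fix σ hv')
      refine ⟨⟨(v - algebraMap K L c * phi σ θ, c), ?_, ?_⟩, ?_⟩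
      · show σ (σ (σ (σ (v - algebraMap K L c * phi σ θ)))) = _
        simp only [map_sub, map_mul, AlgEquiv.commutes, hφ4, hv']
      · show t4 σ (v - algebraMap K L c * phi σ θ) = 0
        have : t4 σ (v - algebraMap K L c * phi σ θ) =
            t4 σ v - algebraMap K L c * t4 σ (phi σ θ) := by
          simp only [t4, map_sub, map_mul, AlgEquiv.commutes]
          ring
        rw [this, t4_phi σ two hθ, mul_one, hc, sub_self]
      · refine Subtype.ext ?_
        show v - algebraMap K L c * phi σ θ + algebraMap K L c * phi σ θ = v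
        ring
  -- the elements of the pencil
  have hDc1 : ∀ c : K, σ (σ (D + algebraMap K L c)) = D + algebraMap K L c := by
    intro c
    simp only [map_add, AlgEquiv.commutes, hD2]
  have hDc2 : ∀ c : K, (D + algebraMap K L c) + σ (D + algebraMap K L c) = 1 := by
    intro c
    simp only [map_add, AlgEquiv.commutes]
    linear_combination hD1 + algebraMap K L c * two
  set Z : K → ℕ := fun c => (S.filter (fun z => G z + (D + algebraMap K L c) * Ψ z = 0)).card with hZ
  have hge' : ∀ c ∈ (Finset.univ : Finset K), q ^ 3 + q ≤ Z c + q ^ 2 := by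
    intro c _
    have := hge (D + algebraMap K L c) (hDc1 c) (hDc2 c)
    rw [hcard (fun z => G z + (D + algebraMap K L c) * Ψ z = 0)] at this
    exact this
  have hPsi' : (S.filter (fun z => Ψ z = 0)).card + q ^ 2 = q ^ 3 + q := by
    rw [hcard (fun z => Ψ z = 0)] at hPsi
    exact hPsi
  -- counting the parameters for a fixed vector
  have hcnt : ∀ z ∈ S, ((Finset.univ : Finset K).filter
      (fun c => G z + (D + algebraMap K L c) * Ψ z = 0)).card =
      (if Ψ z ≠ 0 then 1 else 0) + (if z = 0 then q else 0) := by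
    intro z hz
    obtain ⟨hw, ht⟩ := (hmemS z).1 hz
    have hr : σ (algebraMap K L z.2) = algebraMap K L z.2 := AlgEquiv.commutes _ _
    have hΨσ : σ (Ψ z) = Ψ z := P2_fix σ two hθ hm hw ht hr
    have hGσ : σ (G z) = Ψ z - G z := G2_add σ two hθ hw hr
    by_cases hz0 : z = 0
    · have e1 : Ψ z = 0 := by
        rw [hz0]
        simp [hΨ, P2, t4]
      have e2 : G z = 0 := by
        rw [hz0]
        simp [hG, G2, t4]
      rw [if_neg (by rw [e1]; simp), if_pos hz0, zero_add, e1, e2]
      simp [hqK]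
    · rw [if_neg hz0, add_zero]
      by_cases hΨ0 : Ψ z = 0
      · have e2 : G z ≠ 0 := fun h => hz0 (hno z ((hmemS z).1 hz) hΨ0 h)
        rw [if_neg (by rw [hΨ0]; simp), hΨ0, Finset.card_eq_zero, Finset.filter_eq_empty_iff]
        intro c _
        rw [mul_zero, add_zero]
        exact e2
      · rw [if_pos hΨ0]
        have hx : σ (-(G z / Ψ z) - D) = -(G z / Ψ z) - D := by
          have hDσ : σ D = 1 - D := by linear_combination hD1
          rw [map_sub, map_neg, map_div₀, hΨσ, hGσ, hDσ, sub_div, div_self hΨ0]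
          linear_combination (G z / Ψ z + D - 1) * two
        obtain ⟨c, hc⟩ := fx _ hx
        rw [Finset.card_eq_one]
        refine ⟨c, ?_⟩
        ext c'
        rw [Finset.mem_filter, Finset.mem_singleton]
        constructor
        · rintro ⟨-, h⟩
          have h3 : algebraMap K L c' = algebraMap K L c := by
            rw [hc]
            have : (D + algebraMap K L c') = -(G z / Ψ z) := by
              field_simp
              linear_combination h
            linear_combination this
          exact (algebraMap K L).injective h3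
        · rintro rfl
          refine ⟨Finset.mem_univ _, ?_⟩
          rw [hc]
          field_simp
          ring
  have hsum : ∑ c : K, Z c + (S.filter (fun z => Ψ z = 0)).card = q ^ 4 + q := by
    have e1 : ∑ c : K, Z c = ∑ z ∈ S, ((Finset.univ : Finset K).filter
        (fun c => G z + (D + algebraMap K L c) * Ψ z = 0)).card := by
      simp only [hZ, Finset.card_filter]
      exact Finset.sum_comm
    have hzS : (0 : L × K) ∈ S := by
      rw [hmemS]
      refine ⟨?_, ?_⟩
      · show σ (σ (σ (σ (0 : L)))) = 0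
        simp
      · show t4 σ (0 : L) = 0
        simp [t4]
    rw [e1, Finset.sum_congr rfl hcnt, Finset.sum_add_distrib, Finset.sum_ite_eq' S (0 : L × K),
      if_pos hzS, ← Finset.card_filter, ← hSc,
      ← Finset.card_filter_add_card_filter_not (s := S) (fun z => Ψ z = 0)]
    ring
  have htot : ∑ _c : K, (q ^ 3 + q) = ∑ c : K, (Z c + q ^ 2) := by
    rw [Finset.sum_const, Finset.card_univ, hqK, smul_eq_mul, Finset.sum_add_distrib,
      Finset.sum_const, Finset.card_univ, hqK, smul_eq_mul]
    nlinarith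
  have hall := (Finset.sum_eq_sum_iff_of_le hge').1 htot 0 (Finset.mem_univ _)
  rw [hcard (fun z => G z + D * Ψ z = 0)]
  simp only [hZ, map_zero, add_zero] at hall
  exact hall.symm

end Q192.MR2_PEN
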