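import Mathlib
import Pool.Agent.Q49.MR.Stm

/-!
# Project MR, job B0

A nondegenerate symmetric form in four variables over a finite field of odd characteristic is
similar to each of its nonzero multiples (each binary part is a multiple of a norm form).
-/

set_option autoImplicit false

open Module Q49.MR

namespace Q192.MR_B0

lemma exists_norm {K : Type} [Field K] [Finite K] (h2 : (2 : K) ≠ 0) (c l : K) (hc : c ≠ 0) :
    ∃ x y : K, x ^ 2 + c * y ^ 2 = l := by
  classical
  cases nonempty_fintype K
  have hchar : ringChar K ≠ 2 := by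
    intro h
    apply h2
    have h1 : ((ringChar K : ℕ) : K) = 0 := CharP.cast_eq_zero K (ringChar K)
    rw [h] at h1
    exact_mod_cast h1
  have hodd : Fintype.card K % 2 = 1 := FiniteField.odd_card_of_char_ne_two hchar
  obtain ⟨x, y, hxy⟩ := FiniteField.exists_root_sum_quadratic
    (f := (Polynomial.X ^ 2 - Polynomial.C l : Polynomial K))
    (g := (Polynomial.C c * Polynomial.X ^ 2 : Polynomial K))
    (by compute_degree!) (by compute_degree!) hodd
  refine ⟨x, y, ?_⟩
  simp only [Polynomial.eval_sub, Polynomial.eval_pow, Polynomial.eval_X, Polynomial.eval_C,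
    Polynomial.eval_mul] at hxy
  linear_combination hxy

/-- multiplication by `x + y √(-c)` -/
lemma exists_sim {K : Type} [Field K] [Finite K] (h2 : (2 : K) ≠ 0) (a b l : K) (ha : a ≠ 0)
    (hb : b ≠ 0) (hl : l ≠ 0) : ∃ g : (K × K) ≃ (K × K), ∀ z : K × K,
      a * (g z).1 ^ 2 + b * (g z).2 ^ 2 = l * (a * z.1 ^ 2 + b * z.2 ^ 2) := by
  obtain ⟨x, y, hxy⟩ := exists_norm h2 (b / a) l (div_ne_zero hb ha)
  have hxy' : a * x ^ 2 + b * y ^ 2 = a * l := by
    rw [← hxy]
    field_simp
  refine ⟨⟨fun z => (x * z.1 - b / a * y * z.2, x * z.2 + y * z.1),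
    fun z => ((x * z.1 + b / a * y * z.2) / l, (x * z.2 - y * z.1) / l), ?_, ?_⟩, ?_⟩
  · rintro ⟨u, v⟩
    ext
    · simp only
      rw [div_eq_iff hl, ← hxy]
      ring
    · simp only
      rw [div_eq_iff hl, ← hxy]
      ring
  · rintro ⟨u, v⟩
    ext
    · simp only
      have : x * ((x * u + b / a * y * v) / l) - b / a * y * ((x * v - y * u) / l) =
          (x ^ 2 + b / a * y ^ 2) * u / l := by ring
      rw [this, hxy, mul_div_cancel_left₀ _ hl]
    · simp only
      have : x * ((x * v - y * u) / l) + y * ((x * u + b / a * y * v) / l) =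
          (x ^ 2 + b / a * y ^ 2) * v / l := by ring
      rw [this, hxy, mul_div_cancel_left₀ _ hl]
  · rintro ⟨u, v⟩
    simp only [Equiv.coe_fn_mk]
    have e1 : a * (x * u - b / a * y * v) ^ 2 + b * (x * v + y * u) ^ 2 =
        (x ^ 2 + b / a * y ^ 2) * (a * u ^ 2 + b * v ^ 2) := by
      field_simp
      ring
    rw [e1, hxy]

theorem b0 : S_B0 := by
  intro K V _ _ _ _ B h2 hV hsym hnd t t' ht ht'
  have hfd : FiniteDimensional K V := FiniteDimensional.of_finrank_pos (by rw [hV]; norm_num)
  have hinv : Invertible (2 : K) := invertibleOfNonzero h2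
  obtain ⟨b0, hb0⟩ := LinearMap.BilinForm.exists_orthogonal_basis (B := B)
    ⟨fun v w => by simpa using hsym v w⟩
  let b : Basis (Fin 4) K V := b0.reindex (finCongr hV)
  have horth : ∀ i j : Fin 4, i ≠ j → B (b i) (b j) = 0 := by
    intro i j hij
    simp only [b, Basis.reindex_apply]
    apply hb0
    intro h
    exact hij ((finCongr hV).symm.injective h)
  have hw : ∀ i : Fin 4, B (b i) (b i) ≠ 0 := by
    intro i hi
    apply b.ne_zero i
    apply hnd
    intro x
    have h1 : B (b i) = 0 := by
      apply b.ext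
      intro j
      rw [LinearMap.zero_apply]
      by_cases h : i = j
      · rw [← h, hi]
      · exact horth i j h
    rw [h1, LinearMap.zero_apply]
  have hQ : ∀ v : V, B v v = (B (b 0) (b 0) * b.equivFun v 0 ^ 2 +
      B (b 1) (b 1) * b.equivFun v 1 ^ 2) + (B (b 2) (b 2) * b.equivFun v 2 ^ 2 +
      B (b 3) (b 3) * b.equivFun v 3 ^ 2) := by
    intro v
    have h1 : B v v = B (∑ i, b.equivFun v i • b i) (∑ i, b.equivFun v i • b i) := by
      rw [b.sum_equivFun]
    rw [h1]
    generalize b.equivFun v = c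
    simp only [Fin.sum_univ_four, map_add, map_smul, LinearMap.add_apply, LinearMap.smul_apply,
      smul_eq_mul]
    rw [horth 0 1 (by decide), horth 0 2 (by decide), horth 0 3 (by decide),
      horth 1 0 (by decide), horth 1 2 (by decide), horth 1 3 (by decide),
      horth 2 0 (by decide), horth 2 1 (by decide), horth 2 3 (by decide),
      horth 3 0 (by decide), horth 3 1 (by decide), horth 3 2 (by decide)]
    ring
  obtain ⟨g, hg⟩ := exists_sim h2 _ _ (t' / t) (hw 0) (hw 1) (div_ne_zero ht' ht)
  obtain ⟨g', hg'⟩ := exists_sim h2 _ _ (t' / t) (hw 2) (hw 3) (div_ne_zero ht' ht)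
  let e : (Fin 4 → K) ≃ (K × K) × (K × K) :=
    ⟨fun c => ((c 0, c 1), (c 2, c 3)), fun z => ![z.1.1, z.1.2, z.2.1, z.2.2],
      fun c => by
        funext i
        fin_cases i <;> rfl,
      fun z => rfl⟩
  let f : V ≃ V := (b.equivFun.toEquiv.trans (e.trans (g.prodCongr g'))).trans
    (b.equivFun.toEquiv.trans e).symm
  have hf : ∀ v : V, B (f v) (f v) = t' / t * B v v := by
    intro v
    rw [hQ (f v), hQ v]
    have h1 : e (b.equivFun (f v)) = (g.prodCongr g') (e (b.equivFun v)) := by
      have : (b.equivFun.toEquiv.trans e) (f v) =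
          (b.equivFun.toEquiv.trans (e.trans (g.prodCongr g'))) v := by
        simp only [f, Equiv.trans_apply, Equiv.apply_symm_apply]
      exact this
    have h2 : (b.equivFun (f v) 0, b.equivFun (f v) 1) = g (b.equivFun v 0, b.equivFun v 1) :=
      congrArg Prod.fst h1
    have h3 : (b.equivFun (f v) 2, b.equivFun (f v) 3) = g' (b.equivFun v 2, b.equivFun v 3) :=
      congrArg Prod.snd h1
    have h4 := hg (b.equivFun v 0, b.equivFun v 1)
    have h5 := hg' (b.equivFun v 2, b.equivFun v 3)
    rw [← h2] at h4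
    rw [← h3] at h5
    simp only at h4 h5
    rw [h4, h5]
    ring
  refine Nat.card_congr (Equiv.subtypeEquiv f fun v => ?_)
  rw [hf]
  constructor
  · intro h
    rw [h, div_mul_cancel₀ _ ht]
  · intro h
    have h1 : t' / t * B v v = t' / t * t := by rw [h, div_mul_cancel₀ _ ht]
    exact mul_left_cancel₀ (div_ne_zero ht' ht) h1

end Q192.MR_B0
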