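import Mathlib
import Pool.Agent.Q2.PM.Stm

/-! Project PM (helper2), lemma C6. -/

namespace Q192.PM_C6

open Subgroup
open Q2.PM
open Q2.TN (IsPNil IsSyl IsChief Nm)

/-- a normal 2-subgroup lies in every Sylow 2-subgroup -/
theorem le_syl {G : Type} [Group G] [Finite G] {P V : Subgroup G} (hP : IsSyl 2 P) (hV : V.Normal)
    (hV2 : IsPGroup 2 V) : V ≤ P := by
  haveI : Fact (Nat.Prime 2) := ⟨Nat.prime_two⟩
  haveI := hV
  have h1 : IsPGroup 2 (P ⊔ V : Subgroup G) := IsPGroup.to_sup_of_normal_right hP.1 hV2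
  let S : Sylow 2 G := hP.1.toSylow hP.2
  have h2 : (P ⊔ V : Subgroup G) = S := S.is_maximal' h1 (le_sup_left : P ≤ P ⊔ V)
  have h3 : (S : Subgroup G) = P := rfl
  calc V ≤ P ⊔ V := le_sup_right
    _ = P := by rw [h2, h3]

/-- the subgroup `A ∪ x A` for `x` commuting with `A`, `x * x ∈ A` -/
def two {G : Type} [Group G] (A : Subgroup G) (x : G) (hx : ∀ a ∈ A, a * x = x * a) (h2 : x * x ∈ A) :
    Subgroup G where
  carrier := {h | h ∈ A ∨ x⁻¹ * h ∈ A}
  one_mem' := Or.inl A.one_mem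
  mul_mem' := by
    intro a b ha hb
    rcases ha with ha | ha <;> rcases hb with hb | hb
    · exact Or.inl (A.mul_mem ha hb)
    · right
      have h1 : x⁻¹ * (a * b) = a * (x⁻¹ * b) := by
        have h3 : x⁻¹ * a = a * x⁻¹ := by
          have := hx a ha
          calc x⁻¹ * a = x⁻¹ * (a * x) * x⁻¹ := by group
            _ = x⁻¹ * (x * a) * x⁻¹ := by rw [this]
            _ = a * x⁻¹ := by group
        calc x⁻¹ * (a * b) = (x⁻¹ * a) * b := by group
          _ = (a * x⁻¹) * b := by rw [h3]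
          _ = a * (x⁻¹ * b) := by group
      rw [h1]
      exact A.mul_mem ha hb
    · right
      have h1 : x⁻¹ * (a * b) = (x⁻¹ * a) * b := by group
      rw [h1]
      exact A.mul_mem ha hb
    · left
      have h3 := hx _ ha
      have h1 : a * b = (x * x) * ((x⁻¹ * a) * (x⁻¹ * b)) := by
        calc a * b = x * ((x⁻¹ * a) * x) * (x⁻¹ * b) := by group
          _ = x * (x * (x⁻¹ * a)) * (x⁻¹ * b) := by rw [h3]
          _ = (x * x) * ((x⁻¹ * a) * (x⁻¹ * b)) := by group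
      rw [h1]
      exact A.mul_mem h2 (A.mul_mem ha hb)
  inv_mem' := by
    intro a ha
    rcases ha with ha | ha
    · exact Or.inl (A.inv_mem ha)
    · right
      have h3 := hx _ (A.inv_mem ha)
      have h1 : x⁻¹ * a⁻¹ = (x⁻¹ * a)⁻¹ * (x * x)⁻¹ := by
        calc x⁻¹ * a⁻¹ = x⁻¹ * ((x⁻¹ * a)⁻¹ * x) * x⁻¹ * x⁻¹ := by group
          _ = x⁻¹ * (x * (x⁻¹ * a)⁻¹) * x⁻¹ * x⁻¹ := by rw [h3]
          _ = (x⁻¹ * a)⁻¹ * (x * x)⁻¹ := by group
      show x⁻¹ * a⁻¹ ∈ A
      rw [h1]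
      exact A.mul_mem (A.inv_mem ha) (A.inv_mem h2)

theorem mem_two {G : Type} [Group G] {A : Subgroup G} {x : G} {hx : ∀ a ∈ A, a * x = x * a}
    {h2 : x * x ∈ A} {h : G} : h ∈ two A x hx h2 ↔ h ∈ A ∨ x⁻¹ * h ∈ A := Iff.rfl

theorem card_two {G : Type} [Group G] [Finite G] {A : Subgroup G} {x : G} {hx : ∀ a ∈ A, a * x = x * a}
    {h2 : x * x ∈ A} (hxA : x ∉ A) : Nat.card (two A x hx h2) = 2 * Nat.card A := by
  have h1 : ((two A x hx h2 : Subgroup G) : Set G) = (A : Set G) ∪ (fun a => x * a) '' (A : Set G) := by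
    ext h
    simp only [SetLike.mem_coe, mem_two, Set.mem_union, Set.mem_image]
    constructor
    · rintro (h | h)
      · exact Or.inl h
      · exact Or.inr ⟨_, h, by group⟩
    · rintro (h | ⟨a, ha, rfl⟩)
      · exact Or.inl h
      · right
        simpa using ha
  have h3 : Disjoint (A : Set G) ((fun a => x * a) '' (A : Set G)) := by
    rw [Set.disjoint_left]
    rintro h hh ⟨a, ha, rfl⟩
    apply hxA
    have := A.mul_mem hh (A.inv_mem ha)
    simpa using this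
  have h4 : Nat.card (two A x hx h2) = Set.ncard ((two A x hx h2 : Subgroup G) : Set G) := rfl
  have h5 : Nat.card A = Set.ncard (A : Set G) := rfl
  rw [h4, h5, h1, Set.ncard_union_eq h3 (Set.toFinite _) (Set.toFinite _),
    Set.ncard_image_of_injective _ (mul_right_injective x)]
  ring

theorem c6 (h1 : S_B1) (h4 : S_B4) (h6 : S_B6) (h9 : S_B9) (c1 : S_C1) (c3 : S_C3) (c5 : S_C5) : S_C6 := by
  intro k G _ _ P T hE hT hc
  haveI : Fact (Nat.Prime 2) := ⟨Nat.prime_two⟩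
  obtain ⟨hTn, hTb, hT2, hTm⟩ := hT
  have hT : Q2.PM.IsMin T := ⟨hTn, hTb, hT2, hTm⟩
  have hk := hE.two_le
  have hbT : IsChief (⊥ : Subgroup G) T :=
    ⟨inferInstance, hTn, bot_lt_iff_ne_bot.2 hTb, fun L hL _ hLT => hTm L hL hLT⟩
  have hsq : ∀ x ∈ T, x * x = 1 := fun x hx =>
    Subgroup.mem_bot.1 ((h1 G ⊥ T T hbT hT2 hTn hT2).1 x hx)
  have hcen : ∀ V : Subgroup G, V.Normal → IsPGroup 2 V → ∀ x ∈ T, ∀ y ∈ V, x * y = y * x := by
    intro V hV hV2 x hx y hy
    have h := Subgroup.mem_bot.1 ((h1 G ⊥ T V hbT hT2 hV hV2).2 x hx y hy)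
    calc x * y = (x * y * x⁻¹ * y⁻¹) * (y * x) := by group
      _ = y * x := by rw [h, one_mul]
  have hTP : T ≤ P := le_syl hE.syl hTn hT2
  obtain ⟨H, hHP, hHc, hHT⟩ := h6 k G T P hk hTP hE.syl.1 hc hsq hE.card_lt
  obtain ⟨V, hV, hV2⟩ := c5 k G P T H hE hTn hT2 hHP hHc hHT
    (fun F hF hTF ho => c3 k G P T F hE hT hF hTF ho)
  have hVn : V.Normal := hV.2.1
  have hTV : T < V := hV.2.2.1
  have hVsq : ∀ x ∈ V, x * x ∈ T := (h1 G T V V hV hV2 hVn hV2).1
  have hVP : V ≤ P := le_syl hE.syl hVn hV2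
  obtain ⟨T₁, hT₁, hT₁c, hT₁P⟩ := h4 G T P hTn hT2 hTb hE.syl.1
  have hcV := hcen V hVn hV2
  have hcard : Nat.card T ≠ 2 := by
    rw [hc]
    intro h
    have : 2 ^ 2 ≤ 2 ^ k := Nat.pow_le_pow_right (by norm_num) hk
    omega
  have hns : ∀ x ∈ V, x ∉ T → x * x ∉ T₁ := by
    intro x hx hxT h
    apply hcard
    have hxc : ∀ a ∈ T₁, a * x = x * a := fun a ha => hcV a (hT₁ ha) x hx
    refine c1 k G P T T₁ (two T₁ x hxc h) hE hT hT₁ hT₁c hT₁P ?_ ?_ ?_
    · intro y hy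
      rcases mem_two.1 hy with hy | hy
      · exact hTP (hT₁ hy)
      · apply hVP
        have := V.mul_mem hx (hTV.le (hT₁ hy))
        simpa using this
    · rw [card_two (fun hh => hxT (hT₁ hh)), ← hT₁c, hc]
    · apply le_antisymm
      · rintro y ⟨hy, hyT⟩
        rcases mem_two.1 hy with hy | hy
        · exact hy
        · exfalso
          apply hxT
          have := T.mul_mem hyT (T.inv_mem (hT₁ hy))
          simpa using this
      · intro y hy
        exact ⟨mem_two.2 (Or.inl hy), hT₁ hy⟩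
  have hidx : (T₁.subgroupOf T).index = 2 := by
    have h := Subgroup.card_mul_index (T₁.subgroupOf T)
    have h' : Nat.card (T₁.subgroupOf T) = Nat.card T₁ :=
      Nat.card_congr (Subgroup.subgroupOfEquivOfLe hT₁).toEquiv
    rw [h', hT₁c] at h
    have hpos : 0 < Nat.card T₁ := Nat.card_pos
    have : Nat.card T₁ * (T₁.subgroupOf T).index = Nat.card T₁ * 2 := by rw [h]; ring
    exact Nat.eq_of_mul_eq_mul_left hpos this
  have hprod : ∀ x ∈ T, x ∉ T₁ → ∀ y ∈ T, y ∉ T₁ → x * y ∈ T₁ := by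
    intro x hx hx1 y hy hy1
    have h := (Subgroup.mul_mem_iff_of_index_two hidx (a := ⟨x, hx⟩) (b := ⟨y, hy⟩)).2 (by
      simp only [Subgroup.mem_subgroupOf]
      exact ⟨fun h => absurd h hx1, fun h => absurd h hy1⟩)
    simpa [Subgroup.mem_subgroupOf] using h
  obtain ⟨t, htT, ht1, htc⟩ := h9 G T₁ T T V hTn hVn hTV hT₁ le_rfl hcV hsq hprod
    (fun x hx hxT => ⟨hVsq x hx, hns x hx hxT⟩)
  have hzn : (zpowers t).Normal := by
    constructor
    intro n hn g
    obtain ⟨m, rfl⟩ := Subgroup.mem_zpowers_iff.1 hn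
    have hcm : Commute g t := htc g
    have : g * t ^ m * g⁻¹ = t ^ m := by
      rw [(hcm.zpow_right m).eq]
      group
    rw [this]
    exact hn
  have hzT : zpowers t ≤ T := by
    rw [Subgroup.zpowers_le]
    exact htT
  rcases hTm (zpowers t) hzn hzT with h | h
  · rw [Subgroup.zpowers_eq_bot] at h
    exact ht1 (h ▸ T₁.one_mem)
  · have h5 : Nat.card T = orderOf t := by
      rw [← h, Nat.card_zpowers]
    have h7 : orderOf t ∣ 2 := orderOf_dvd_of_pow_eq_one (by rw [pow_two]; exact hsq t htT)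
    rw [← h5, hc] at h7
    have h8 := Nat.le_of_dvd (by norm_num) h7
    have : 2 ^ 2 ≤ 2 ^ k := Nat.pow_le_pow_right (by norm_num) hk
    omega

end Q192.PM_C6
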