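import Pool.Agent.Q88.PS.Stm

/-!
# Project PS (helper88), job ANT
-/

set_option autoImplicit false

open MeasureTheory Set Filter Topology
open scoped ENNReal NNReal

namespace Pool.Agent.Q192.PSA

open Pool.Agent.Q88.PS

theorem ant0 (lam τ : ℝ) : ∃ A : Finset (List D), AC A ∧
    (∀ w ∈ A, res lam τ w ∈ Ioo (0 : ℝ) (LL lam)) ∧
    ind lam τ ≤ ∑ w ∈ A, (2 : ℝ≥0∞)⁻¹ ^ w.length := by
  by_cases h : τ ∈ Ioo (0 : ℝ) (LL lam)
  · refine ⟨{[]}, ?_, ?_, ?_⟩
    · intro w hw w' hw' _
      rw [Finset.mem_singleton] at hw hw'
      rw [hw, hw']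
    · intro w hw
      rw [Finset.mem_singleton] at hw
      subst hw
      exact h
    · rw [Finset.sum_singleton, ind, indicator_of_mem h, List.length_nil, pow_zero]
  · refine ⟨∅, ?_, ?_, ?_⟩
    · intro w hw
      exact absurd hw (Finset.notMem_empty w)
    · intro w hw
      exact absurd hw (Finset.notMem_empty w)
    · rw [ind, indicator_of_notMem h]
      exact zero_le

/-- the antichains realise the value of the stopping rule -/
theorem ant : S_ant := by
  intro lam n
  induction n with
  | zero =>
    intro τ
    exact ant0 lam τ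
  | succ n ih =>
    intro τ
    by_cases h : TT lam (vv lam n) τ ≤ ind lam τ
    · obtain ⟨A, hA1, hA2, hA3⟩ := ant0 lam τ
      exact ⟨A, hA1, hA2, (max_le le_rfl h).trans hA3⟩
    · choose A hA1 hA2 hA3 using ih
      refine ⟨Finset.univ.biUnion (fun d : D => (A (8 * τ - dl lam d)).image (fun w => d :: w)), ?_, ?_, ?_⟩
      · intro w hw w' hw' hp
        simp only [Finset.mem_biUnion, Finset.mem_univ, true_and, Finset.mem_image] at hw hw'
        obtain ⟨d, u, hu, rfl⟩ := hw
        obtain ⟨d', u', hu', rfl⟩ := hw'
        obtain ⟨rfl, h2⟩ := List.cons_prefix_cons.1 hp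
        rw [hA1 _ u hu u' hu' h2]
      · intro w hw
        simp only [Finset.mem_biUnion, Finset.mem_univ, true_and, Finset.mem_image] at hw
        obtain ⟨d, u, hu, rfl⟩ := hw
        exact hA2 _ u hu
      · have h1 : vv lam (n + 1) τ = TT lam (vv lam n) τ := max_eq_right (le_of_not_ge h)
        rw [h1, TT, Finset.sum_biUnion]
        · rw [Finset.mul_sum]
          refine Finset.sum_le_sum fun d _ => ?_
          rw [Finset.sum_image (fun a _ b _ hab => (List.cons.inj hab).2)]
          refine (mul_le_mul_right (hA3 (8 * τ - dl lam d)) _).trans (le_of_eq ?_)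
          rw [Finset.mul_sum]
          refine Finset.sum_congr rfl fun w _ => ?_
          rw [List.length_cons, pow_succ, mul_comm]
        · intro d _ d' _ hdd
          rw [Function.onFun, Finset.disjoint_left]
          intro w hw hw'
          rw [Finset.mem_image] at hw hw'
          obtain ⟨u, -, rfl⟩ := hw
          obtain ⟨u', -, h3⟩ := hw'
          exact hdd (List.cons.inj h3).1.symm

end Pool.Agent.Q192.PSA
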