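import Pool.Agent.Q88.PS.Stm

/-!
# Project PS (helper88), job SLC
-/

set_option autoImplicit false

open MeasureTheory Set Filter Topology
open scoped ENNReal NNReal

namespace Pool.Agent.Q192.PSS

open Pool.Agent.Q88.PS

theorem res_append (lam : ℝ) (v : List D) : ∀ (τ : ℝ) (u : List D),
    res lam τ (v ++ u) = res lam (res lam τ v) u := by
  induction v with
  | nil => intro τ u; rfl
  | cons d v ih => intro τ u; exact ih _ u

theorem exists_word (h1 : S_step) {lam : ℝ} (hlam : lam ∈ Icc (1 : ℝ) (3 / 2)) (m : ℕ) :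
    ∀ σ ∈ Icc (0 : ℝ) (LL lam), ∃ u : List D, u.length = m ∧ res lam σ u ∈ Icc (0 : ℝ) (LL lam) := by
  induction m with
  | zero => intro σ hσ; exact ⟨[], rfl, hσ⟩
  | succ m ih =>
    intro σ hσ
    obtain ⟨d, hd⟩ := h1 lam hlam σ hσ
    obtain ⟨u, hu, hu'⟩ := ih _ hd
    exact ⟨d :: u, by rw [List.length_cons, hu], hu'⟩

theorem continuous_pr (lam : ℝ) : Continuous (pr lam) := by
  unfold pr
  fun_prop

/-- slices -/
theorem slc (h : S_base) (h1 : S_step) (h2 : S_hit) (h3 : S_ant) (h4 : S_pck) : S_slc := by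
  intro lam hlam τ hτ hV
  refine h4 _ ?_ ?_ (fun x hx => hx.1) ?_
  · exact h.1.inter_right (isClosed_singleton.preimage (continuous_pr lam) : IsClosed (pr lam ⁻¹' {τ}))
  · obtain ⟨x, hx, -⟩ := (h2 lam hlam τ []).2 hτ
    exact ⟨x, hx⟩
  · intro v hv m k
    have hv' := (h2 lam hlam τ v).1 hv
    obtain ⟨u, hu, hu'⟩ := exists_word h1 hlam m _ hv'
    rw [← res_append] at hu'
    have hT := hV _ hu'
    have hlt : (k : ℝ≥0∞) * 2 ^ (v.length + m) < Vs lam (res lam τ (v ++ u)) := by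
      rw [hT]
      exact (ENNReal.mul_lt_top (ENNReal.natCast_lt_top k) (ENNReal.pow_lt_top ENNReal.ofNat_lt_top))
    obtain ⟨n, hn⟩ := lt_iSup_iff.1 hlt
    obtain ⟨A, hA1, hA2, hA3⟩ := h3 lam n (res lam τ (v ++ u))
    refine ⟨A.image (fun w => v ++ u ++ w), ?_, ?_, ?_⟩
    · intro w hw w' hw' hp
      rw [Finset.mem_image] at hw hw'
      obtain ⟨w, hw, rfl⟩ := hw
      obtain ⟨w', hw', rfl⟩ := hw'
      rw [hA1 w hw w' hw' ((List.prefix_append_right_inj _).1 hp)]
    · intro w hw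
      rw [Finset.mem_image] at hw
      obtain ⟨w, hw, rfl⟩ := hw
      refine ⟨?_, ?_, ?_⟩
      · rw [List.length_append, List.length_append, hu]
        omega
      · rw [List.append_assoc]
        exact List.prefix_append _ _
      · rw [h2 lam hlam τ, res_append]
        exact Ioo_subset_Icc_self (hA2 w hw)
    · rw [Finset.sum_image (fun a _ b _ hab => List.append_cancel_left hab)]
      have e1 : ∀ w ∈ A, (2 : ℝ≥0∞)⁻¹ ^ (v ++ u ++ w).length =
          (2 : ℝ≥0∞)⁻¹ ^ (v.length + m) * (2 : ℝ≥0∞)⁻¹ ^ w.length := by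
        intro w _
        rw [List.length_append, List.length_append, hu, pow_add]
      rw [Finset.sum_congr rfl e1, ← Finset.mul_sum]
      have e2 : (2 : ℝ≥0∞)⁻¹ ^ (v.length + m) * (k * 2 ^ (v.length + m)) = k := by
        rw [mul_comm, mul_assoc, ← mul_pow, ENNReal.mul_inv_cancel (by norm_num) (by norm_num), one_pow,
          mul_one]
      calc (k : ℝ≥0∞) = (2 : ℝ≥0∞)⁻¹ ^ (v.length + m) * (k * 2 ^ (v.length + m)) := e2.symm
        _ ≤ _ := by
          gcongr
          exact hn.le.trans hA3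

end Pool.Agent.Q192.PSS
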