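import Pool.Agent.Q110.RK.Stm

/-!
# Blow-ups (job BLW of project RK)
-/

set_option autoImplicit false

namespace Pool.Agent.Q192.RK

open Finset Module Pool.Agent.Q110.RK

lemma num (q n : ℕ) (hq : 1 ≤ q) (h : 2 * (q * q) ≤ n + 1) :
    ∃ a b : ℕ, n = a * (2 * q - 1) + b * q := by
  obtain ⟨p, hp⟩ : ∃ p : ℕ, 2 * q = p + 1 := ⟨2 * q - 1, by omega⟩
  have hp' : 2 * q - 1 = p := by omega
  rw [hp']
  have hp1 : 1 ≤ p := by omega
  set b := (2 * n) % p with hb
  set t := (2 * n) / p with ht
  have h1 : p * t + b = 2 * n := Nat.div_add_mod _ _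
  have h2 : b < p := Nat.mod_lt _ hp1
  have h3 : q * b ≤ n := by
    have h4 : q * b + q ≤ q * p := by
      have := Nat.mul_le_mul_left q (Nat.succ_le_of_lt h2)
      nlinarith
    have h5 : q * p + q = 2 * (q * q) := by nlinarith
    omega
  have hz : (p : ℤ) * ((t : ℤ) - b) = 2 * ((n : ℤ) - q * b) := by
    have e1 : (p : ℤ) * t + b = 2 * n := by exact_mod_cast h1
    have e2 : 2 * (q : ℤ) = p + 1 := by exact_mod_cast hp
    linear_combination e1 + (b : ℤ) * e2
  have hev : Even ((t : ℤ) - b) := by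
    have h6 : Even ((p : ℤ) * ((t : ℤ) - b)) := ⟨(n : ℤ) - q * b, by rw [hz]; ring⟩
    rcases Int.even_mul.1 h6 with h7 | h7
    · exfalso
      obtain ⟨c, hc⟩ := h7
      omega
    · exact h7
  obtain ⟨c, hc⟩ := hev
  have h8 : (p : ℤ) * c = (n : ℤ) - q * b := by
    rw [hc] at hz
    linarith
  have h9 : 0 ≤ c := by
    have h10 : (0 : ℤ) ≤ (n : ℤ) - q * b := by
      have : ((q * b : ℕ) : ℤ) ≤ n := by exact_mod_cast h3
      push_cast at this
      linarith
    rw [← h8] at h10
    have h11 : (0 : ℤ) < p := by exact_mod_cast hp1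
    exact nonneg_of_mul_nonneg_right h10 h11
  refine ⟨c.toNat, b, ?_⟩
  zify
  rw [Int.toNat_of_nonneg h9]
  linarith

theorem blow : S_frame → S_card_qu → S_iso_card → S_iso_qu → S_clique → S_blow := by
  classical
  intro hF hC hI hQ hK m k r hk4 hk hr
  have h2m : 1 ≤ 2 ^ m := Nat.one_le_two_pow
  have h4 : 4 ^ (m + 1) = 4 * (2 ^ m * 2 ^ m) := by
    rw [pow_succ, ← mul_pow]
    norm_num
    ring
  have h2 : 2 ^ (m + 1) = 2 * 2 ^ m := by rw [pow_succ]; ring
  obtain ⟨a, b, hab⟩ := num (2 ^ m) (k - 1) h2m (by omega)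
  -- the bound for cliques
  have hkm : 2 * (m + 1) + 1 < k := by
    have h5 : ∀ n : ℕ, 2 * (2 * (n + 1) + 1) < 4 ^ (n + 1) ∨ n = 0 := by
      intro n
      induction n with
      | zero => right; rfl
      | succ n ih =>
        left
        rcases ih with h | h
        · rw [pow_succ]
          omega
        · subst h
          norm_num
    rcases h5 m with h | h
    · omega
    · subst h
      omega
  set V := (Fin a × {v : Vec (m + 1) // v ≠ 0}) ⊕ (Fin b × {v : Vec (m + 1) // qu v = 1}) with hV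
  set φ : V → Vec (m + 1) := Sum.elim (fun x => x.2.1) (fun x => x.2.1) with hφ
  set c : V → Fin a ⊕ Fin b := Sum.map Prod.fst Prod.fst with hc
  have hinj : ∀ i : Fin a ⊕ Fin b, ∀ x y : V, c x = i → c y = i → φ x = φ y → x = y := by
    intro i x y hx hy hxy
    rcases x with ⟨x1, x2⟩ | ⟨x1, x2⟩ <;> rcases y with ⟨y1, y2⟩ | ⟨y1, y2⟩
    · have e1 : x1 = y1 := Sum.inl.inj (hx.trans hy.symm)
      have e2 : x2 = y2 := Subtype.ext hxy
      rw [e1, e2]
    · have := hx.trans hy.symm
      cases this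
    · have := hx.trans hy.symm
      cases this
    · have e1 : x1 = y1 := Sum.inr.inj (hx.trans hy.symm)
      have e2 : x2 = y2 := Subtype.ext hxy
      rw [e1, e2]
  have hcard : Fintype.card V = (k - 1) * (2 ^ (m + 1) + 1) := by
    rw [Fintype.card_sum, Fintype.card_prod, Fintype.card_prod, Fintype.card_fin, Fintype.card_fin]
    have e1 : Fintype.card {v : Vec (m + 1) // v ≠ 0} = 4 ^ (m + 1) - 1 := by
      rw [Fintype.card_subtype_compl, card_Vec, Fintype.card_subtype_eq]
    have e2 : Fintype.card {v : Vec (m + 1) // qu v = 1} = 2 ^ m * (2 ^ (m + 1) + 1) := by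
      rw [Fintype.card_subtype]
      exact hC m
    rw [e1, e2, hab, h4, h2]
    obtain ⟨u, hu⟩ : ∃ u : ℕ, 2 ^ m = u + 1 := ⟨2 ^ m - 1, by omega⟩
    rw [hu]
    have e3 : 2 * (u + 1) - 1 = 2 * u + 1 := by omega
    have e4 : 4 * ((u + 1) * (u + 1)) - 1 = (2 * u + 1) * (2 * u + 3) := by
      have : 4 * ((u + 1) * (u + 1)) = (2 * u + 1) * (2 * u + 3) + 1 := by ring
      omega
    rw [e3, e4]
    ring
  have key := hF.2 V (m + 1) k r φ hr ?_ ?_
  · rw [hcard] at key
    exact key
  · intro S hS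
    have h6 : #S = ∑ i : Fin a ⊕ Fin b, #(S.filter fun x => c x = i) :=
      Finset.card_eq_sum_card_fiberwise fun x _ => Finset.mem_coe.2 (Finset.mem_univ _)
    have h7 : ∀ i : Fin a ⊕ Fin b, #(S.filter fun x => c x = i) =
        #((S.filter fun x => c x = i).image φ) := by
      intro i
      refine (Finset.card_image_of_injOn ?_).symm
      intro x hx y hy hxy
      rw [Finset.mem_coe, Finset.mem_filter] at hx hy
      exact hinj i x y hx.2 hy.2 hxy
    have h8 : ∀ i : Fin a ⊕ Fin b, ∀ v ∈ (S.filter fun x => c x = i).image φ,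
        ∀ w ∈ (S.filter fun x => c x = i).image φ, om v w = 0 := by
      intro i v hv w hw
      obtain ⟨x, hx, rfl⟩ := Finset.mem_image.1 hv
      obtain ⟨y, hy, rfl⟩ := Finset.mem_image.1 hw
      exact hS x (Finset.mem_filter.1 hx).1 y (Finset.mem_filter.1 hy).1
    have h9 : ∀ i : Fin a, #(S.filter fun x => c x = Sum.inl i) ≤ 2 * 2 ^ m - 1 := by
      intro i
      rw [h7, ← h2]
      refine (hI (m + 1) _ (h8 _)).2 ?_
      intro h0
      obtain ⟨x, hx, hx0⟩ := Finset.mem_image.1 h0
      have hx' := (Finset.mem_filter.1 hx).2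
      rcases x with x | x
      · exact x.2.2 hx0
      · cases hx'
    have h10 : ∀ i : Fin b, #(S.filter fun x => c x = Sum.inr i) ≤ 2 ^ m := by
      intro i
      rw [h7]
      refine hQ m _ (h8 _) ?_
      intro v hv
      obtain ⟨x, hx, rfl⟩ := Finset.mem_image.1 hv
      have hx' := (Finset.mem_filter.1 hx).2
      rcases x with x | x
      · cases hx'
      · exact x.2.2
    have h11 : #S ≤ a * (2 * 2 ^ m - 1) + b * 2 ^ m := by
      rw [h6, Fintype.sum_sum_type]
      refine Nat.add_le_add ?_ ?_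
      · refine (Finset.sum_le_sum fun i _ => h9 i).trans (le_of_eq ?_)
        rw [Finset.sum_const, Finset.card_univ, Fintype.card_fin, smul_eq_mul]
      · refine (Finset.sum_le_sum fun i _ => h10 i).trans (le_of_eq ?_)
        rw [Finset.sum_const, Finset.card_univ, Fintype.card_fin, smul_eq_mul]
    rw [← hab] at h11
    omega
  · intro S hS
    have h6 : #S = #(S.image φ) := by
      refine (Finset.card_image_of_injOn ?_).symm
      intro x hx y hy hxy
      by_contra hne
      have h7 := hS x hx y hy hne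
      have hxy' : φ x = φ y := hxy
      rw [hxy', om_self] at h7
      exact zero_ne_one h7
    have h7 := hK (m + 1) (S.image φ) (by
      intro v hv w hw hvw
      obtain ⟨x, hx, rfl⟩ := Finset.mem_image.1 hv
      obtain ⟨y, hy, rfl⟩ := Finset.mem_image.1 hw
      exact hS x hx y hy (fun h => hvw (by rw [h])))
    omega

end Pool.Agent.Q192.RK
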