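import Mathlib
import Pool.Agent.Q2.TN.Stm

/-!
# Project TN, job E1
-/

set_option autoImplicit false

open Q2.TN Subgroup
open scoped Pointwise

namespace Q192.TN_E1

lemma exists_conj_le {p : ℕ} (hp : p.Prime) {M : Type} [Group M] [Finite M] {P Y : Subgroup M}
    (hP : IsSyl p P) (hY : IsPGroup p Y) : ∃ g : M, ∀ y ∈ Y, g * y * g⁻¹ ∈ P := by
  have : Fact p.Prime := ⟨hp⟩
  obtain ⟨Q, hQ⟩ := hY.exists_le_sylow
  obtain ⟨g, hg⟩ := MulAction.exists_smul_eq M Q (hP.1.toSylow hP.2)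
  refine ⟨g, fun y hy => ?_⟩
  have h1 : y ∈ (Q : Subgroup M) := hQ hy
  have h2 : MulAut.conj g • y ∈ MulAut.conj g • (Q : Subgroup M) :=
    smul_mem_pointwise_smul y (MulAut.conj g) _ h1
  have h3 : MulAut.conj g • (Q : Subgroup M) = P :=
    congrArg (fun S : Sylow p M => (S : Subgroup M)) hg
  rw [h3] at h2
  exact h2

lemma disjoint_of {p : ℕ} {G : Type} [Group G] [Finite G] {N X : Subgroup G}
    (hN : (Nat.card N).Coprime p) (hX : IsPGroup p X) {u : G} (h1 : u ∈ N) (hu : u ∈ X) :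
    u = 1 := by
  obtain ⟨k, hk⟩ := hX ⟨u, hu⟩
  have hk' : u ^ p ^ k = 1 := congrArg Subtype.val hk
  have hm : u ^ Nat.card N = 1 := by
    have := pow_card_eq_one' (x := (⟨u, h1⟩ : N))
    exact congrArg Subtype.val this
  have h3 : Nat.gcd (Nat.card N) (p ^ k) = 1 := Nat.Coprime.pow_right k hN
  have h4 : u ^ Nat.gcd (Nat.card N) (p ^ k) = 1 := pow_gcd_eq_one.2 ⟨hm, hk'⟩
  rwa [h3, pow_one] at h4

lemma isSyl_sup {p : ℕ} (hp : p.Prime) {G : Type} [Group G] [Finite G] {N X : Subgroup G}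
    [N.Normal] (hN : (Nat.card N).Coprime p) (hX : IsPGroup p X) :
    IsSyl p (X.subgroupOf (X ⊔ N)) := by
  refine ⟨hX.comap_subtype, ?_⟩
  have hbot : N.subgroupOf X = ⊥ := by
    rw [eq_bot_iff]
    rintro ⟨u, hu⟩ h
    rw [mem_subgroupOf] at h
    rw [mem_bot]
    exact Subtype.ext (disjoint_of hN hX h hu)
  have e1 : Nat.card (X.subgroupOf (X ⊔ N)) = Nat.card X :=
    Nat.card_congr (subgroupOfEquivOfLe le_sup_left).toEquiv
  have e2 : Nat.card (N.subgroupOf (X ⊔ N)) = Nat.card N :=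
    Nat.card_congr (subgroupOfEquivOfLe le_sup_right).toEquiv
  have e3 : (N.subgroupOf (X ⊔ N)).index = Nat.card X := by
    have h1 : N.relIndex (X ⊔ N) = N.relIndex X := relIndex_sup_right X N
    have h2 : N.relIndex X = Nat.card X := by
      show (N.subgroupOf X).index = _
      rw [hbot, index_bot]
    exact h1.trans h2
  have e4 := card_mul_index (X.subgroupOf (X ⊔ N))
  have e5 := card_mul_index (N.subgroupOf (X ⊔ N))
  rw [e1] at e4
  rw [e2, e3] at e5
  have e6 : (X.subgroupOf (X ⊔ N)).index = Nat.card N := by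
    have h1 : 0 < Nat.card X := Nat.card_pos
    have h2 : Nat.card X * (X.subgroupOf (X ⊔ N)).index = Nat.card X * Nat.card N := by
      rw [e4, ← e5, mul_comm]
    exact Nat.eq_of_mul_eq_mul_left h1 h2
  rw [e6]
  exact (Nat.Prime.coprime_iff_not_dvd hp).1 hN.symm

theorem e1 : S_E1 := by
  intro p hp G _ _ N X _ hN hX
  refine le_antisymm ?_ (le_normalizer_map _)
  intro x hx
  obtain ⟨g, rfl⟩ := QuotientGroup.mk'_surjective N x
  have hg := mem_normalizer_iff.1 hx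
  have hM : ∀ x ∈ X, g * x * g⁻¹ ∈ X ⊔ N := by
    intro x hxX
    have h1 := (hg (QuotientGroup.mk' N x)).1 (mem_map_of_mem _ hxX)
    rw [← map_inv, ← map_mul, ← map_mul] at h1
    obtain ⟨w, hw, hw'⟩ := h1
    rw [mem_sup_of_normal_right]
    refine ⟨w, hw, w⁻¹ * (g * x * g⁻¹), ?_, by group⟩
    rw [← QuotientGroup.ker_mk' N, MonoidHom.mem_ker, map_mul, map_inv, hw', inv_mul_cancel]
  obtain ⟨m, hm⟩ := exists_conj_le hp (isSyl_sup hp hN hX)
    (Y := (X.map (MulAut.conj g).toMonoidHom).subgroupOf (X ⊔ N)) (hX.map _).comap_subtype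
  obtain ⟨u, hu, n, hn, hun⟩ := mem_sup_of_normal_right.1 m.2
  have hng : n * g ∈ Nm X := by
    refine mem_normalizer_fintype fun x hxX => ?_
    have h1 := hm ⟨g * x * g⁻¹, hM x hxX⟩ (by
      rw [mem_subgroupOf]
      exact ⟨x, hxX, rfl⟩)
    rw [mem_subgroupOf] at h1
    have h2 : (m : G) * (g * x * g⁻¹) * (m : G)⁻¹ ∈ X := h1
    rw [← hun] at h2
    have h3 := mul_mem (mul_mem (inv_mem hu) h2) hu
    have h4 : u⁻¹ * (u * n * (g * x * g⁻¹) * (u * n)⁻¹) * u = n * g * x * (n * g)⁻¹ := by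
      group
    rw [h4] at h3
    exact h3
  refine ⟨n * g, hng, ?_⟩
  have h3 : QuotientGroup.mk' N n = 1 := by
    rw [← MonoidHom.mem_ker, QuotientGroup.ker_mk']
    exact hn
  rw [map_mul, h3, one_mul]

end Q192.TN_E1
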