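import Mathlib
import Pool.Agent.Q2.TN.Stm

/-!
# Project TN, job F6
-/

set_option autoImplicit false

open Q2.TN Subgroup

namespace Q192.TN_F6

lemma count_pow {X : Type} [CommGroup X] [Fintype X] [DecidableEq X] {p : ℕ}
    (h1 : (Finset.univ.filter (fun x : X => x ^ p = 1)).card ≤ p) (m : ℕ) :
    (Finset.univ.filter (fun x : X => x ^ (p ^ m) = 1)).card ≤ p ^ m := by
  induction m with
  | zero =>
    rw [pow_zero]
    have : Finset.univ.filter (fun x : X => x ^ 1 = 1) = {1} := by
      ext x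
      simp
    rw [this, Finset.card_singleton]
  | succ m ih =>
    have h2 := Finset.card_le_mul_card_image_of_maps_to
      (s := Finset.univ.filter (fun x : X => x ^ (p ^ (m + 1)) = 1))
      (t := Finset.univ.filter (fun x : X => x ^ (p ^ m) = 1)) (f := fun x : X => x ^ p)
      (fun x hx => by
        rw [Finset.mem_filter] at hx ⊢
        refine ⟨Finset.mem_univ _, ?_⟩
        rw [← pow_mul, ← pow_succ']
        exact hx.2) p
      (fun y _ => by
        by_cases hne : (Finset.filter (fun x : X => x ^ p = y)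
          (Finset.univ.filter (fun x : X => x ^ (p ^ (m + 1)) = 1))).Nonempty
        · obtain ⟨x₀, hx₀⟩ := hne
          have hx₀' : x₀ ^ p = y := (Finset.mem_filter.1 hx₀).2
          refine le_trans (Finset.card_le_card_of_injOn (fun x => x * x₀⁻¹) ?_ ?_) h1
          · intro x hx
            have hx' : x ^ p = y := (Finset.mem_filter.1 (Finset.mem_coe.1 hx)).2
            rw [Finset.mem_coe, Finset.mem_filter]
            refine ⟨Finset.mem_univ _, ?_⟩
            rw [mul_pow, inv_pow, hx', hx₀', mul_inv_cancel]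
          · intro x _ x' _ h
            exact mul_right_cancel h
        · rw [Finset.not_nonempty_iff_eq_empty] at hne
          rw [hne, Finset.card_empty]
          exact Nat.zero_le _)
    refine h2.trans ?_
    rw [pow_succ']
    exact Nat.mul_le_mul_left p ih

lemma cyclic_of_count {X : Type} [CommGroup X] [Fintype X] [DecidableEq X] {p : ℕ}
    (hp : p.Prime) (hX : ∃ k, Nat.card X = p ^ k)
    (h1 : (Finset.univ.filter (fun x : X => x ^ p = 1)).card ≤ p) : IsCyclic X := by
  obtain ⟨k, hk⟩ := hX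
  refine isCyclic_of_card_pow_eq_one_le fun n hn => ?_
  obtain ⟨m, -, hm⟩ := (Nat.dvd_prime_pow hp).1 (Nat.gcd_dvd_right n (p ^ k))
  have h2 : (Finset.univ.filter (fun x : X => x ^ n = 1)) ⊆
      (Finset.univ.filter (fun x : X => x ^ (p ^ m) = 1)) := by
    intro x hx
    rw [Finset.mem_filter] at hx ⊢
    refine ⟨Finset.mem_univ _, ?_⟩
    rw [← hm]
    exact pow_gcd_eq_one.2 ⟨hx.2, by rw [← hk]; exact pow_card_eq_one'⟩
  refine (Finset.card_le_card h2).trans ((count_pow h1 m).trans ?_)
  rw [← hm]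
  exact Nat.le_of_dvd hn (Nat.gcd_dvd_left _ _)

theorem f6 : S_F6 := by
  classical
  intro p hp A _ _ B hA hB h
  obtain ⟨k, hk⟩ := hA
  have hfin : Finite (A ⧸ B) := inferInstance
  have inst : Fintype (A ⧸ B) := Fintype.ofFinite _
  have hX : ∃ k, Nat.card (A ⧸ B) = p ^ k := by
    have h1 : Nat.card (A ⧸ B) ∣ p ^ k := by
      rw [← hk]
      exact Subgroup.card_quotient_dvd_card B
    obtain ⟨m, -, hm⟩ := (Nat.dvd_prime_pow hp).1 h1
    exact ⟨m, hm⟩
  have hT : (Finset.univ.filter (fun x : A ⧸ B => x ^ p = 1)).card ≤ p := by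
    by_cases hx : ∃ x : A ⧸ B, x ^ p = 1 ∧ x ≠ 1
    · obtain ⟨x, hx1, hx2⟩ := hx
      obtain ⟨b, rfl⟩ := QuotientGroup.mk_surjective x
      have hbp : b ^ p ∈ B := by
        rw [← QuotientGroup.eq_one_iff, QuotientGroup.mk_pow]
        exact hx1
      have hb : b ∉ B := fun hb => hx2 ((QuotientGroup.eq_one_iff b).2 hb)
      have hsub : ∀ y : A ⧸ B, y ^ p = 1 → y ∈ zpowers (b : A ⧸ B) := by
        intro y hy
        obtain ⟨c, rfl⟩ := QuotientGroup.mk_surjective y
        have hcp : c ^ p ∈ B := by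
          rw [← QuotientGroup.eq_one_iff, QuotientGroup.mk_pow]
          exact hy
        obtain ⟨i, j, hi, hj, hij, hmem⟩ := h b c hbp hcp hb
        have hmem' : (b : A ⧸ B) ^ i * (c : A ⧸ B) ^ j = 1 := by
          rw [← QuotientGroup.mk_pow, ← QuotientGroup.mk_pow, ← QuotientGroup.mk_mul]
          exact (QuotientGroup.eq_one_iff _).2 hmem
        have hj0 : j ≠ 0 := by
          intro hj0
          subst hj0
          have hi0 : i ≠ 0 := fun hi0 => hij (by rw [hi0])
          rw [pow_zero, mul_one] at hmem'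
          have h2 : (b : A ⧸ B) ^ Nat.gcd i p = 1 := pow_gcd_eq_one.2 ⟨hmem', hx1⟩
          have h3 : Nat.gcd i p = 1 :=
            (Nat.coprime_of_lt_prime hi0 hi hp).symm
          rw [h3, pow_one] at h2
          exact hx2 h2
        have hcop : Nat.Coprime j p := (Nat.coprime_of_lt_prime hj0 hj hp).symm
        have hcj : (c : A ⧸ B) ^ j ∈ zpowers (b : A ⧸ B) := by
          rw [eq_inv_of_mul_eq_one_right hmem']
          exact inv_mem (pow_mem (mem_zpowers _) i)
        have hcp' : (c : A ⧸ B) ^ p ∈ zpowers (b : A ⧸ B) := by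
          have hy' : (c : A ⧸ B) ^ p = 1 := hy
          rw [hy']
          exact one_mem _
        -- Bezout
        have hbz := Nat.gcd_eq_gcd_ab j p
        rw [hcop.gcd_eq_one] at hbz
        have h4 : (c : A ⧸ B) = ((c : A ⧸ B) ^ j) ^ (Nat.gcdA j p) *
            ((c : A ⧸ B) ^ p) ^ (Nat.gcdB j p) := by
          rw [← zpow_natCast, ← zpow_natCast, ← zpow_mul, ← zpow_mul, ← zpow_add, ← hbz]
          simp
        show (c : A ⧸ B) ∈ zpowers (b : A ⧸ B)
        rw [h4]
        exact mul_mem (zpow_mem hcj _) (zpow_mem hcp' _)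
      have h5 : (Finset.univ.filter (fun x : A ⧸ B => x ^ p = 1)).card ≤
          Nat.card (zpowers (b : A ⧸ B)) := by
        have e : Nat.card (zpowers (b : A ⧸ B)) =
            (Finset.univ.filter (fun y : A ⧸ B => y ∈ zpowers (b : A ⧸ B))).card := by
          rw [Nat.card_eq_fintype_card, Fintype.card_subtype]
        rw [e]
        refine Finset.card_le_card ?_
        intro y hy
        rw [Finset.mem_filter]
        exact ⟨Finset.mem_univ _, hsub y (Finset.mem_filter.1 hy).2⟩
      refine h5.trans ?_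
      rw [Nat.card_zpowers]
      exact Nat.le_of_dvd hp.pos (orderOf_dvd_of_pow_eq_one hx1)
    · have h6 : (Finset.univ.filter (fun x : A ⧸ B => x ^ p = 1)) ⊆ {1} := by
        intro y hy
        rw [Finset.mem_singleton]
        by_contra hy1
        exact hx ⟨y, (Finset.mem_filter.1 hy).2, hy1⟩
      refine (Finset.card_le_card h6).trans ?_
      rw [Finset.card_singleton]
      exact hp.pos
  have hcyc : IsCyclic (A ⧸ B) := cyclic_of_count hp hX hT
  obtain ⟨g, hg⟩ := hcyc.exists_generator
  obtain ⟨a, rfl⟩ := QuotientGroup.mk_surjective g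
  refine ⟨a, ?_⟩
  rw [eq_top_iff]
  intro x _
  obtain ⟨n, hn⟩ := mem_zpowers_iff.1 (hg (x : A ⧸ B))
  have h7 : x * (a ^ n)⁻¹ ∈ B := by
    rw [← QuotientGroup.eq_one_iff, QuotientGroup.mk_mul, QuotientGroup.mk_inv,
      QuotientGroup.mk_zpow]
    have hn' : ((a : A ⧸ B)) ^ n = (x : A ⧸ B) := hn
    rw [hn', mul_inv_cancel]
  rw [mem_sup]
  exact ⟨x * (a ^ n)⁻¹, h7, a ^ n, zpow_mem (mem_zpowers a) n, by group⟩

end Q192.TN_F6
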