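import Mathlib
import Pool.Agent.Q2.TN.Stm

/-!
# Project TN, job M13
-/

set_option autoImplicit false

open Q2.TN Subgroup
open scoped Pointwise

namespace Q192.TN_M13

lemma eq_one_of_coprime {G : Type} [Group G] {p m k : ℕ} {u : G} (hm : m.Coprime p)
    (h1 : u ^ m = 1) (h2 : u ^ p ^ k = 1) : u = 1 := by
  have h3 : Nat.gcd m (p ^ k) = 1 := Nat.Coprime.pow_right k hm
  have h4 : u ^ Nat.gcd m (p ^ k) = 1 := pow_gcd_eq_one.2 ⟨h1, h2⟩
  rwa [h3, pow_one] at h4

lemma exists_conj {p : ℕ} (hp : p.Prime) {M : Type} [Group M] [Finite M] {P : Subgroup M}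
    (hP : IsSyl p P) {z : M} (hz : z ^ p = 1) : ∃ g : M, g * z * g⁻¹ ∈ P := by
  have : Fact p.Prime := ⟨hp⟩
  have hZ : IsPGroup p (zpowers z) := by
    rintro ⟨w, hw⟩
    obtain ⟨n, rfl⟩ := mem_zpowers_iff.1 hw
    refine ⟨1, Subtype.ext ?_⟩
    show (z ^ n) ^ p ^ 1 = 1
    rw [pow_one, ← zpow_natCast, ← zpow_mul, mul_comm, zpow_mul, zpow_natCast, hz, one_zpow]
  obtain ⟨Q, hQ⟩ := hZ.exists_le_sylow
  obtain ⟨g, hg⟩ := MulAction.exists_smul_eq M Q (hP.1.toSylow hP.2)
  refine ⟨g, ?_⟩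
  have h1 : z ∈ (Q : Subgroup M) := hQ (mem_zpowers z)
  have h2 : MulAut.conj g • z ∈ MulAut.conj g • (Q : Subgroup M) :=
    smul_mem_pointwise_smul z (MulAut.conj g) _ h1
  have h3 : MulAut.conj g • (Q : Subgroup M) = P := by
    have h4 := congrArg (fun S : Sylow p M => (S : Subgroup M)) hg
    exact h4
  rw [h3] at h2
  exact h2

theorem m13 (h5 : S_M5) (he : S_E1) (h2 : S_A2) (h6 : S_A6) : S_M13 := by
  intro p hp G _ _ P N _ hP hN hNil hC
  have hE := he p hp G N P hN hP.1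
  have hS : IsSyl p (P.map (QuotientGroup.mk' N)) :=
    (h6 p hp G P hP).2.1 (G ⧸ N) (QuotientGroup.mk' N) (QuotientGroup.mk'_surjective N)
  -- the quotient map is injective on `P`
  have hinj : ∀ u ∈ P, QuotientGroup.mk' N u = 1 → u = 1 := by
    intro u hu h
    have h1 : u ∈ N := by
      rw [← QuotientGroup.ker_mk' N]
      exact h
    obtain ⟨k, hk⟩ := hP.1 ⟨u, hu⟩
    have hk' : u ^ p ^ k = 1 := congrArg Subtype.val hk
    have hm : u ^ Nat.card N = 1 := by
      have := pow_card_eq_one' (x := (⟨u, h1⟩ : N))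
      exact congrArg Subtype.val this
    exact eq_one_of_coprime hN hm hk'
  refine ⟨hS, ?_, ?_⟩
  · rw [hE]
    exact h2 p hp (Nm P) ((Nm P).map (QuotientGroup.mk' N))
      ((QuotientGroup.mk' N).subgroupMap (Nm P))
      (MonoidHom.subgroupMap_surjective _ _) hNil
  · intro x hx H hH hall
    have hfp : Fact p.Prime := ⟨hp⟩
    obtain ⟨x, rfl⟩ := QuotientGroup.mk'_surjective N x
    -- a generator of `H`
    have hcyc : IsCyclic H := isCyclic_of_prime_card hH
    obtain ⟨g, hg⟩ := hcyc.exists_generator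
    have hHg : ∀ w ∈ H, ∃ n : ℤ, (g : G ⧸ N) ^ n = w := by
      intro w hw
      obtain ⟨n, hn⟩ := mem_zpowers_iff.1 (hg ⟨w, hw⟩)
      exact ⟨n, congrArg Subtype.val hn⟩
    obtain ⟨hgr, hgP, hgx⟩ := hall g g.2
    obtain ⟨y, hyP, hy⟩ := hgP
    have hyP' : y ∈ P := hyP
    have hgp : (g : G ⧸ N) ^ p = 1 := by
      have h3 : g ^ Nat.card H = 1 := pow_card_eq_one'
      rw [hH] at h3
      exact congrArg Subtype.val h3
    have hg1 : (g : G ⧸ N) ≠ 1 := by
      intro h
      have h3 : Nat.card H = 1 := by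
        rw [Nat.card_eq_one_iff_unique]
        refine ⟨⟨fun a b => ?_⟩, ⟨1⟩⟩
        have h4 : ∀ a : H, a = 1 := by
          intro a
          obtain ⟨n, hn⟩ := hHg a a.2
          apply Subtype.ext
          rw [← hn, h, one_zpow]
          rfl
        rw [h4 a, h4 b]
      rw [hH] at h3
      exact hp.one_lt.ne' h3
    have hyp : y ^ p = 1 := by
      apply hinj _ (pow_mem hyP' p)
      rw [map_pow, hy, hgp]
    have hy1 : y ≠ 1 := by
      intro h
      rw [h, map_one] at hy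
      exact hg1 hy.symm
    -- a conjugate in `P`
    obtain ⟨n, hnN, hn⟩ : ∃ n ∈ N, n * (x * y * x⁻¹) * n⁻¹ ∈ P := by
      have hzM : x * y * x⁻¹ ∈ P ⊔ N := by
        rw [← hy, ← map_inv, ← map_mul, ← map_mul] at hgx
        obtain ⟨w, hw, hw'⟩ := hgx
        rw [mem_sup_of_normal_right]
        refine ⟨w, hw, w⁻¹ * (x * y * x⁻¹), ?_, by group⟩
        rw [← QuotientGroup.ker_mk' N, MonoidHom.mem_ker, map_mul, map_inv, hw', inv_mul_cancel]
      have hSM : IsSyl p (P.subgroupOf (P ⊔ N)) := (h6 p hp G P hP).1 _ le_sup_left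
      obtain ⟨g', hg'⟩ := exists_conj hp hSM (z := ⟨x * y * x⁻¹, hzM⟩) (by
        apply Subtype.ext
        show (x * y * x⁻¹) ^ p = 1
        rw [conj_pow, hyp, mul_one, mul_inv_cancel])
      have hg'' : (g' : G) * (x * y * x⁻¹) * (g' : G)⁻¹ ∈ P := by
        rw [mem_subgroupOf] at hg'
        exact hg'
      obtain ⟨u, hu, n, hn, hun⟩ := mem_sup_of_normal_right.1 g'.2
      refine ⟨n, hn, ?_⟩
      rw [← hun] at hg''
      have h3 := mul_mem (mul_mem (inv_mem hu) hg'') hu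
      have h4 : u⁻¹ * (u * n * (x * y * x⁻¹) * (u * n)⁻¹) * u = n * (x * y * x⁻¹) * n⁻¹ := by
        group
      rw [h4] at h3
      exact h3
    have hmk : QuotientGroup.mk' N (n * x) = QuotientGroup.mk' N x := by
      have h3 : QuotientGroup.mk' N n = 1 := by
        rw [← MonoidHom.mem_ker, QuotientGroup.ker_mk']
        exact hnN
      rw [map_mul, h3, one_mul]
    have hx' : n * x ∉ normalizer (P : Set G) := by
      intro h
      apply hx
      have h3 : QuotientGroup.mk' N (n * x) ∈ (Nm P).map (QuotientGroup.mk' N) :=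
        mem_map_of_mem _ h
      rw [hmk, ← hE] at h3
      exact h3
    have hconj : (n * x) * y * (n * x)⁻¹ ∈ P := by
      have : (n * x) * y * (n * x)⁻¹ = n * (x * y * x⁻¹) * n⁻¹ := by group
      rw [this]
      exact hn
    have hcardy : Nat.card (zpowers y) = p := by
      rw [Nat.card_zpowers]
      exact orderOf_eq_prime hyp hy1
    have hyr : y ∈ superRes p G := by
      refine h5 p hp G N hN y 1 (by rw [pow_one]; exact hyp) ?_
      rw [hy]
      exact hgr
    obtain ⟨B, hBP, hB1, hB2⟩ := hC (n * x) hx' (zpowers y) hcardy (by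
      intro h hh
      obtain ⟨i, rfl⟩ := mem_zpowers_iff.1 hh
      refine ⟨zpow_mem hyr i, zpow_mem hyP' i, ?_⟩
      rw [← conj_zpow]
      exact zpow_mem hconj i)
    refine ⟨B.map (QuotientGroup.mk' N), map_mono hBP, ?_, ?_⟩
    · rintro w ⟨v, hv, rfl⟩
      obtain ⟨h, hh, b, hb, rfl⟩ := hB1 v hv
      refine ⟨QuotientGroup.mk' N h, ?_, QuotientGroup.mk' N b, mem_map_of_mem _ hb,
        map_mul _ _ _⟩
      obtain ⟨i, rfl⟩ := mem_zpowers_iff.1 hh
      rw [map_zpow, hy]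
      exact zpow_mem g.2 i
    · rintro w hwH ⟨b, hb, rfl⟩ v ⟨v, hv, rfl⟩
      obtain ⟨i, hi⟩ := hHg _ hwH
      have hb' : b ∈ B := hb
      have hv' : v ∈ P := hv
      have h3 : y ^ i = b := by
        have h4 : y ^ i * b⁻¹ = 1 := by
          apply hinj _ (mul_mem (zpow_mem hyP' i) (inv_mem (hBP hb')))
          rw [map_mul, map_zpow, hy, hi, map_inv, mul_inv_cancel]
        exact mul_inv_eq_one.1 h4
      have h4 := hB2 b (h3 ▸ zpow_mem (mem_zpowers y) i) hb' v hv'
      rw [← map_mul, ← map_mul, h4]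

end Q192.TN_M13
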