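import Mathlib
import Pool.Agent.Q2.TN.Stm

/-!
# Project TN, job M5
-/

set_option autoImplicit false

open Q2.TN Subgroup

namespace Q192.TN_M5

theorem m5 (h1 : S_M1) : S_M5 := by
  intro p hp G _ _ N _ hN y k hy hmem
  unfold superRes
  rw [mem_sInf]
  rintro L ⟨hL, hPSS⟩
  have hL' : (L.map (QuotientGroup.mk' N)).Normal :=
    hL.map _ (QuotientGroup.mk'_surjective N)
  have hle : L ≤ ((QuotientGroup.mk' (L.map (QuotientGroup.mk' N))).comp
      (QuotientGroup.mk' N)).ker := by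
    intro l hl
    rw [MonoidHom.mem_ker, MonoidHom.comp_apply, ← MonoidHom.mem_ker, QuotientGroup.ker_mk']
    exact mem_map_of_mem _ hl
  have hPSS' : IsPSS p ((G ⧸ N) ⧸ L.map (QuotientGroup.mk' N)) := by
    refine h1 p hp (G ⧸ L) ((G ⧸ N) ⧸ L.map (QuotientGroup.mk' N))
      (QuotientGroup.lift L ((QuotientGroup.mk' (L.map (QuotientGroup.mk' N))).comp
        (QuotientGroup.mk' N)) hle) ?_ hPSS
    refine QuotientGroup.lift_surjective_of_surjective L _ ?_ hle
    exact (QuotientGroup.mk'_surjective _).comp (QuotientGroup.mk'_surjective N)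
  have h2 : QuotientGroup.mk' N y ∈ L.map (QuotientGroup.mk' N) := by
    unfold superRes at hmem
    rw [mem_sInf] at hmem
    exact hmem _ ⟨hL', hPSS'⟩
  obtain ⟨l, hl, hly⟩ := h2
  have hl' : l ∈ L := hl
  have hn : l⁻¹ * y ∈ N := by
    rw [← QuotientGroup.ker_mk' N, MonoidHom.mem_ker, map_mul, map_inv, hly, inv_mul_cancel]
  have h3 : (QuotientGroup.mk' L y) ^ Nat.card N = 1 := by
    have h4 : (l⁻¹ * y) ^ Nat.card N = 1 := by
      have := pow_card_eq_one' (x := (⟨l⁻¹ * y, hn⟩ : N))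
      exact congrArg Subtype.val this
    have h5 : QuotientGroup.mk' L (l⁻¹ * y) = QuotientGroup.mk' L y := by
      have h6 : QuotientGroup.mk' L l⁻¹ = 1 := by
        rw [← MonoidHom.mem_ker, QuotientGroup.ker_mk']
        exact inv_mem hl'
      rw [map_mul, h6, one_mul]
    rw [← h5, ← map_pow, h4, map_one]
  have h4 : (QuotientGroup.mk' L y) ^ p ^ k = 1 := by
    rw [← map_pow, hy, map_one]
  have h5 : Nat.gcd (Nat.card N) (p ^ k) = 1 := Nat.Coprime.pow_right k hN
  have h6 : (QuotientGroup.mk' L y) ^ Nat.gcd (Nat.card N) (p ^ k) = 1 :=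
    pow_gcd_eq_one.2 ⟨h3, h4⟩
  rw [h5, pow_one] at h6
  rw [← QuotientGroup.ker_mk' L, MonoidHom.mem_ker]
  exact h6

end Q192.TN_M5
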